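import Pool.Agent.Helper22.SR.Count

set_option autoImplicit false

/-!
# Ramsey numbers for subspaces of `F_2^n`: definitions and basic facts
-/

open Module

namespace Pool.Agent.Helper22.SR

/-- Every `r`-colouring of `F_2^n ∖ {0}` has a `2`-dimensional subspace monochromatic in one of the
first `r - 1` colours or a `d`-dimensional subspace monochromatic in the last colour. -/
def Arrows (r d n : ℕ) : Prop :=
  ∀ c : {v : Fin n → ZMod 2 // v ≠ 0} → Fin r,
    (∃ i : Fin r, (i : ℕ) + 1 < r ∧ ∃ W : Submodule (ZMod 2) (Fin n → ZMod 2),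
      finrank (ZMod 2) W = 2 ∧ ∀ v, v.1 ∈ W → c v = i) ∨
    (∃ W : Submodule (ZMod 2) (Fin n → ZMod 2),
      finrank (ZMod 2) W = d ∧ ∀ v, v.1 ∈ W → (c v : ℕ) + 1 = r)

/-- `ramseyF2 r d` is the number `R^{(r)}_{F_2}(2; d)` of the problem. -/
noncomputable def ramseyF2 (r d : ℕ) : ℕ := sInf {n | Arrows r d n}

/-- There are sum-free sets `A i` in `E` such that every `d`-dimensional subspace meets one of
them. -/
def AvoidOn (ι : Type) (E : Type) [AddCommGroup E] [Module (ZMod 2) E] (d : ℕ) : Prop :=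
  ∃ A : ι → Set E, (∀ i, ∀ x ∈ A i, ∀ y ∈ A i, x + y ∉ A i) ∧
    ∀ W : Submodule (ZMod 2) E, finrank (ZMod 2) W = d → ∃ i, ∃ w ∈ W, w ∈ A i

theorem AvoidOn.comap {ι : Type} {E F : Type} [AddCommGroup E] [Module (ZMod 2) E]
    [AddCommGroup F] [Module (ZMod 2) F] {d : ℕ} (h : AvoidOn ι E d) (f : F →ₗ[ZMod 2] E)
    (hf : Function.Injective f) : AvoidOn ι F d := by
  obtain ⟨A, hA, hW⟩ := h
  refine ⟨fun i => f ⁻¹' (A i), fun i x hx y hy hxy => ?_, fun W hWd => ?_⟩
  · have : f (x + y) ∈ A i := hxy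
    rw [map_add] at this
    exact hA i _ hx _ hy this
  · obtain ⟨i, w, hw, hwA⟩ := hW (W.map f) (by
      rw [← (Submodule.equivMapOfInjective f hf W).finrank_eq, hWd])
    obtain ⟨v, hv, rfl⟩ := hw
    exact ⟨i, v, hv, hwA⟩

theorem AvoidOn.reindex {ι κ : Type} {E : Type} [AddCommGroup E] [Module (ZMod 2) E] {d : ℕ}
    (h : AvoidOn ι E d) (e : κ ≃ ι) : AvoidOn κ E d := by
  obtain ⟨A, hA, hW⟩ := h
  refine ⟨fun k => A (e k), fun k => hA (e k), fun W hWd => ?_⟩
  obtain ⟨i, w, hw, hwA⟩ := hW W hWd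
  refine ⟨e.symm i, w, hw, ?_⟩
  show w ∈ A (e (e.symm i))
  rwa [e.apply_symm_apply]

theorem AvoidOn.mono_d {ι : Type} {E : Type} [AddCommGroup E] [Module (ZMod 2) E]
    [Module.Finite (ZMod 2) E]
    {d d' : ℕ} (h : AvoidOn ι E d) (hd : d ≤ d') : AvoidOn ι E d' := by
  obtain ⟨A, hA, hW⟩ := h
  refine ⟨A, hA, fun W hWd => ?_⟩
  obtain ⟨W', hW', hd'⟩ := exists_le_finrank W d (by rw [hWd]; exact hd)
  obtain ⟨i, w, hw, hwA⟩ := hW W' hd'
  exact ⟨i, w, hW' hw, hwA⟩

/-- an injective linear map between finite-dimensional spaces -/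
theorem exists_injective (F E : Type) [AddCommGroup E] [Module (ZMod 2) E]
    [Module.Finite (ZMod 2) E]
    [AddCommGroup F] [Module (ZMod 2) F] [Module.Finite (ZMod 2) F]
    (h : finrank (ZMod 2) F ≤ finrank (ZMod 2) E) :
    ∃ f : F →ₗ[ZMod 2] E, Function.Injective f := by
  obtain ⟨Y, _, hY⟩ := exists_le_finrank (⊤ : Submodule (ZMod 2) E) (finrank (ZMod 2) F)
    (by rw [finrank_top]; exact h)
  let e : F ≃ₗ[ZMod 2] Y := LinearEquiv.ofFinrankEq F Y hY.symm
  exact ⟨Y.subtype ∘ₗ e.toLinearMap, Y.subtype_injective.comp e.injective⟩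

/-- coordinate version -/
def Avoid (s d n : ℕ) : Prop := AvoidOn (Fin s) (Fin n → ZMod 2) d

theorem AvoidOn.toAvoid {ι : Type} [Fintype ι] {E : Type} [AddCommGroup E] [Module (ZMod 2) E]
    [Module.Finite (ZMod 2) E] {d : ℕ} (h : AvoidOn ι E d) (s n : ℕ) (hs : Fintype.card ι = s)
    (hn : n ≤ finrank (ZMod 2) E) : Avoid s d n := by
  obtain ⟨f, hf⟩ := exists_injective (Fin n → ZMod 2) E (by
    rw [Module.finrank_fin_fun]; exact hn)
  have h1 := h.comap f hf
  exact h1.reindex (Fintype.equivFinOfCardEq hs).symm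

theorem Avoid.mono {s d n d' n' : ℕ} (h : Avoid s d n) (hd : d ≤ d') (hn : n' ≤ n) :
    Avoid s d' n' :=
  (AvoidOn.mono_d h hd).toAvoid s n' (Fintype.card_fin s) (by
    rw [Module.finrank_fin_fun]; exact hn)

theorem Avoid.mono_s {s d n s' : ℕ} (h : Avoid s d n) (hs : s ≤ s') : Avoid s' d n := by
  obtain ⟨A, hA, hW⟩ := h
  refine ⟨fun i => if hi : (i : ℕ) < s then A ⟨i, hi⟩ else ∅, fun i x hx y hy => ?_,
    fun W hWd => ?_⟩
  · by_cases hi : (i : ℕ) < s
    · simp only [hi, dif_pos] at hx hy ⊢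
      exact hA _ x hx y hy
    · simp only [hi, dif_neg, not_false_iff] at hx
      exact absurd hx (Set.notMem_empty x)
  · obtain ⟨i, w, hw, hwA⟩ := hW W hWd
    refine ⟨⟨i, lt_of_lt_of_le i.2 hs⟩, w, hw, ?_⟩
    simp only [i.2, dif_pos]
    exact hwA

/-- in a two-dimensional space there are two distinct non-zero vectors -/
theorem exists_pair {E : Type} [AddCommGroup E] [Module (ZMod 2) E]
    (W : Submodule (ZMod 2) E) (hW : finrank (ZMod 2) W = 2) :
    ∃ x ∈ W, ∃ y ∈ W, x ≠ 0 ∧ y ≠ 0 ∧ x + y ≠ 0 := by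
  have hfin : Module.Finite (ZMod 2) W := Module.finite_of_finrank_pos (by omega)
  have hcard : Nat.card W = 4 := by rw [natCard_eq, hW]; norm_num
  have hfin' : Finite W := finite_space W
  -- pick a nonzero x, then y outside {0, x}
  have hx : ∃ x : W, x ≠ 0 := by
    by_contra hcon
    push Not at hcon
    have : Subsingleton W := ⟨fun a b => by rw [hcon a, hcon b]⟩
    have := Finite.card_le_one_iff_subsingleton.mpr this
    omega
  obtain ⟨x, hx⟩ := hx
  have hy : ∃ y : W, y ≠ 0 ∧ y ≠ x := by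
    by_contra hcon
    push Not at hcon
    have hsub : (Set.univ : Set W) ⊆ {0, x} := by
      intro y _
      by_cases hy0 : y = 0
      · left; exact hy0
      · right; exact hcon y hy0
    have h1 := Set.ncard_le_ncard hsub (Set.toFinite _)
    have h2 := Set.ncard_pair hx.symm
    rw [h2, Set.ncard_univ, hcard] at h1
    omega
  obtain ⟨y, hy0, hyx⟩ := hy
  refine ⟨x, x.2, y, y.2, fun h => hx (Subtype.ext h), fun h => hy0 (Subtype.ext h), ?_⟩
  intro h
  apply hyx
  apply Subtype.ext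
  have h1 : (y : E) + y = 0 := by
    have := two_smul (ZMod 2) (y : E)
    rw [show (2 : ZMod 2) = 0 from rfl, zero_smul] at this
    exact this.symm
  exact add_right_cancel (h1.trans h.symm)

theorem zmod2_cases : ∀ a : ZMod 2, a = 0 ∨ a = 1 := by decide

theorem add_self_eq {E : Type} [AddCommGroup E] [Module (ZMod 2) E] (x : E) : x + x = 0 := by
  have := two_smul (ZMod 2) x
  rw [show (2 : ZMod 2) = 0 from rfl, zero_smul] at this
  exact this.symm

theorem not_mem_zero {E : Type} [AddCommGroup E] [Module (ZMod 2) E] {A : Set E}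
    (hA : ∀ x ∈ A, ∀ y ∈ A, x + y ∉ A) : (0 : E) ∉ A := by
  intro h
  have := hA 0 h 0 h
  rw [add_zero] at this
  exact this h

theorem Avoid.not_arrows {s d n : ℕ} (h : Avoid s d n) : ¬ Arrows (s + 1) d n := by
  classical
  obtain ⟨A, hA, hW⟩ := h
  intro har
  -- the colouring
  let c : {v : Fin n → ZMod 2 // v ≠ 0} → Fin (s + 1) := fun v =>
    if hv : ∃ i, v.1 ∈ A i then (Classical.choose hv).castSucc else Fin.last s
  rcases har c with ⟨i, hi, W, hW2, hWc⟩ | ⟨W, hWd, hWc⟩
  · obtain ⟨x, hx, y, hy, hx0, hy0, hxy0⟩ := exists_pair W hW2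
    have key : ∀ v : Fin n → ZMod 2, v ≠ 0 → v ∈ W → v ∈ A ⟨i, by omega⟩ := by
      intro v hv0 hvW
      have h1 := hWc ⟨v, hv0⟩ hvW
      by_cases hex : ∃ j, v ∈ A j
      · have h2 : c ⟨v, hv0⟩ = (Classical.choose hex).castSucc := dif_pos hex
        rw [h2] at h1
        have h3 := Classical.choose_spec hex
        have h4 : (⟨i, by omega⟩ : Fin s) = Classical.choose hex := by
          apply Fin.ext
          have := congrArg Fin.val h1
          simp only [Fin.val_castSucc] at this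
          exact this.symm
        rw [h4]
        exact h3
      · have h2 : c ⟨v, hv0⟩ = Fin.last s := dif_neg hex
        rw [h2] at h1
        rw [← h1] at hi
        simp at hi
    exact hA _ x (key x hx0 hx) y (key y hy0 hy) (key (x + y) hxy0 (W.add_mem hx hy))
  · obtain ⟨i, w, hw, hwA⟩ := hW W hWd
    have hw0 : w ≠ 0 := by
      rintro rfl
      exact not_mem_zero (hA i) hwA
    have h1 := hWc ⟨w, hw0⟩ hw
    have hex : ∃ i, w ∈ A i := ⟨i, hwA⟩
    have h2 : c ⟨w, hw0⟩ = (Classical.choose hex).castSucc := dif_pos hex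
    rw [h2] at h1
    simp only [Fin.val_castSucc] at h1
    have := (Classical.choose hex).2
    omega

theorem avoid_of_not_arrows {s d n : ℕ} (h : ¬ Arrows (s + 1) d n) : Avoid s d n := by
  unfold Arrows at h
  push Not at h
  obtain ⟨c, hc1, hc2⟩ := h
  refine ⟨fun i => {v | ∃ hv : v ≠ 0, c ⟨v, hv⟩ = i.castSucc}, ?_, ?_⟩
  · rintro i x ⟨hx0, hx⟩ y ⟨hy0, hy⟩ ⟨hxy0, hxy⟩
    have hne : x ≠ y := by
      rintro rfl
      exact hxy0 (add_self_eq x)
    have hli : LinearIndependent (ZMod 2) ![x, y] := by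
      rw [LinearIndependent.pair_iff]
      intro a b hab
      have ha : a = 0 ∨ a = 1 := zmod2_cases a
      have hb : b = 0 ∨ b = 1 := zmod2_cases b
      rcases ha with rfl | rfl <;> rcases hb with rfl | rfl
      · exact ⟨rfl, rfl⟩
      · exfalso; rw [zero_smul, one_smul, zero_add] at hab; exact hy0 hab
      · exfalso; rw [zero_smul, one_smul, add_zero] at hab; exact hx0 hab
      · exfalso; rw [one_smul, one_smul] at hab; exact hxy0 hab
    have hW2 : finrank (ZMod 2) (Submodule.span (ZMod 2) (Set.range ![x, y])) = 2 := by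
      rw [finrank_span_eq_card hli, Fintype.card_fin]
    obtain ⟨v, hv, hvc⟩ := hc1 i.castSucc (by
      have := i.2
      simp only [Fin.val_castSucc]; omega) _ hW2
    apply hvc
    have hv' : v.1 ∈ Submodule.span (ZMod 2) {x, y} := by
      have : Set.range ![x, y] = {x, y} := by
        simp [Set.pair_comm]
      rw [← this]; exact hv
    rw [Submodule.mem_span_pair] at hv'
    obtain ⟨a, b, hab⟩ := hv'
    have ha : a = 0 ∨ a = 1 := zmod2_cases a
    have hb : b = 0 ∨ b = 1 := zmod2_cases b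
    rcases ha with rfl | rfl <;> rcases hb with rfl | rfl
    · exfalso
      rw [zero_smul, zero_smul, add_zero] at hab
      exact v.2 hab.symm
    · rw [zero_smul, one_smul, zero_add] at hab
      have : v = ⟨y, hy0⟩ := Subtype.ext hab.symm
      rw [this]; exact hy
    · rw [zero_smul, one_smul, add_zero] at hab
      have : v = ⟨x, hx0⟩ := Subtype.ext hab.symm
      rw [this]; exact hx
    · rw [one_smul, one_smul] at hab
      have : v = ⟨x + y, hxy0⟩ := Subtype.ext hab.symm
      rw [this]; exact hxy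
  · intro W hWd
    obtain ⟨v, hv, hvc⟩ := hc2 W hWd
    have hlt : (c v : ℕ) < s := by
      have := (c v).2
      omega
    exact ⟨⟨c v, hlt⟩, v.1, hv, v.2, by
      apply Fin.ext; simp⟩

theorem arrows_iff {s d n : ℕ} : Arrows (s + 1) d n ↔ ¬ Avoid s d n :=
  ⟨fun h h' => h'.not_arrows h, fun h => by
    by_contra hcon
    exact h (avoid_of_not_arrows hcon)⟩

/-- the Ramsey number in terms of `Avoid` -/
theorem lt_ramsey_iff {s d n : ℕ} (hex : ∃ N, Arrows (s + 1) d N) :
    n < ramseyF2 (s + 1) d ↔ Avoid s d n := by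
  have hmem : Arrows (s + 1) d (ramseyF2 (s + 1) d) := Nat.sInf_mem hex
  constructor
  · intro h
    apply avoid_of_not_arrows
    exact Nat.notMem_of_lt_sInf h
  · intro h
    by_contra hcon
    push Not at hcon
    exact (h.mono le_rfl hcon).not_arrows hmem

end Pool.Agent.Helper22.SR
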