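import Pool.Agent.Helper22.SR.Rosenfeld
import Pool.Agent.Helper22.SR.Defs

set_option autoImplicit false

/-!
# Sum-free sets in `F_2^(2q)` meeting all subspaces of dimension `q + O(log q)`
-/

open Module Finset

namespace Pool.Agent.Helper22.SR

open Classical in
theorem avoid_local (q k : ℕ) (hcond : 2 ^ (q + 3) * (2 * q * k + q + 6) ≤ 2 ^ k) :
    Avoid 1 k (2 * q) := by
  set X := Fin (2 * q) → ZMod 2 with hX
  let TT : Finset (Finset X) := Finset.univ.filter (fun T => ∃ x y : X, x ≠ 0 ∧ y ≠ 0 ∧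
    x + y ≠ 0 ∧ T = {x, y, x + y})
  let WW : Finset (Finset X) := Finset.univ.filter (fun S => ∃ W : Submodule (ZMod 2) X,
    finrank (ZMod 2) W = k ∧ ∀ x, x ∈ S ↔ x ∈ W ∧ x ≠ 0)
  set p : ℝ := (1 / 2) ^ q / 4 with hp
  set β : ℝ := 1 - p / 2 with hβ
  have hp0 : 0 < p := by positivity
  have hp4 : p ≤ 1 / 4 := by
    have : ((1 : ℝ) / 2) ^ q ≤ 1 := pow_le_one₀ (by norm_num) (by norm_num)
    rw [hp]; linarith
  have hβ0 : 7 / 8 ≤ β := by rw [hβ]; linarith
  have hβ1 : β ≤ 1 := by rw [hβ]; linarith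
  have hq2 : ((1 : ℝ) / 2) ^ q * 2 ^ q = 1 := by
    rw [← mul_pow]; norm_num
  have hp2 : p * 2 ^ q = 1 / 4 := by
    rw [hp]; linarith
  -- cardinalities
  have hT3 : ∀ T ∈ TT, T.card = 3 := by
    intro T hT
    rw [Finset.mem_filter] at hT
    obtain ⟨x, y, hx, hy, hxy, rfl⟩ := hT.2
    have h1 : x ≠ y := by rintro rfl; exact hxy (add_self_eq x)
    have h2 : x ≠ x + y := by
      intro h
      exact hy (by simpa using h)
    have h3 : y ≠ x + y := by
      intro h
      exact hx (by simpa using h)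
    rw [Finset.card_insert_of_notMem, Finset.card_insert_of_notMem, Finset.card_singleton]
    · simpa using hx
    · simp only [Finset.mem_insert, Finset.mem_singleton, not_or]
      exact ⟨h1, h2⟩
  have hTv : ∀ v : X, (TT.filter (fun T => v ∈ T)).card ≤ 2 ^ (2 * q) := by
    intro v
    have hsub : TT.filter (fun T => v ∈ T) ⊆
        Finset.univ.image (fun x : X => ({v, x, v + x} : Finset X)) := by
      intro T hT
      rw [Finset.mem_filter, Finset.mem_filter] at hT
      obtain ⟨⟨_, x, y, hx, hy, hxy, rfl⟩, hv⟩ := hT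
      rw [Finset.mem_image]
      simp only [Finset.mem_insert, Finset.mem_singleton] at hv
      rcases hv with rfl | rfl | rfl
      · exact ⟨y, Finset.mem_univ _, rfl⟩
      · refine ⟨x, Finset.mem_univ _, ?_⟩
        ext z
        simp only [Finset.mem_insert, Finset.mem_singleton]
        rw [add_comm x v]
        tauto
      · refine ⟨x, Finset.mem_univ _, ?_⟩
        have : x + y + x = y := by
          rw [add_right_comm, add_self_eq, zero_add]
        rw [this]
        ext z
        simp only [Finset.mem_insert, Finset.mem_singleton]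
        tauto
    refine (Finset.card_le_card hsub).trans (Finset.card_image_le.trans ?_)
    rw [Finset.card_univ, Fintype.card_fun, ZMod.card, Fintype.card_fin]
  have hWcard : ∀ W ∈ WW, W.card + 1 = 2 ^ k := by
    intro S hS
    rw [Finset.mem_filter] at hS
    obtain ⟨_, W, hW, hWS⟩ := hS
    have h1 : insert 0 S = Finset.univ.filter (fun x => x ∈ W) := by
      ext x
      rw [Finset.mem_insert, hWS, Finset.mem_filter]
      constructor
      · rintro (rfl | h)
        · exact ⟨Finset.mem_univ _, W.zero_mem⟩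
        · exact ⟨Finset.mem_univ _, h.1⟩
      · rintro ⟨_, h⟩
        by_cases hx : x = 0
        · left; exact hx
        · right; exact ⟨h, hx⟩
    have h2 : (0 : X) ∉ S := by
      rw [hWS]; rintro ⟨_, h⟩; exact h rfl
    rw [← Finset.card_insert_of_notMem h2, h1, ← Fintype.card_subtype, ← Nat.card_eq_fintype_card]
    have h3 := natCard_eq (V := W)
    rw [hW] at h3
    exact h3
  have hWnum : (WW.card : ℝ) ≤ 4 * 2 ^ (2 * q * k) := by
    have h1 : WW.card ≤ Nat.card {W : Submodule (ZMod 2) X // finrank (ZMod 2) W = k} := by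
      have hfin := finite_submodule X
      have hex : ∀ S : {S // S ∈ WW}, ∃ W : {W : Submodule (ZMod 2) X // finrank (ZMod 2) W = k},
          ∀ x, x ∈ S.1 ↔ x ∈ W.1 ∧ x ≠ 0 := by
        rintro ⟨S, hS⟩
        rw [Finset.mem_filter] at hS
        obtain ⟨_, W, hW, hWS⟩ := hS
        exact ⟨⟨W, hW⟩, hWS⟩
      choose f hf using hex
      have hinj : Function.Injective f := by
        intro S S' h
        apply Subtype.ext
        ext x
        rw [hf S, hf S', h]
      have := Nat.card_le_card_of_injective f hinj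
      rwa [Nat.card_eq_fintype_card, Fintype.card_coe] at this
    have h2 : Nat.card {W : Submodule (ZMod 2) X // finrank (ZMod 2) W = k} * 2 ^ (k * k) ≤
        4 * 2 ^ (2 * q * k) := by
      have h2' := card_subspaces (V := Fin (2 * q) → ZMod 2) k
      rw [Module.finrank_fin_fun] at h2'
      exact h2'
    have h3 : Nat.card {W : Submodule (ZMod 2) X // finrank (ZMod 2) W = k} ≤
        4 * 2 ^ (2 * q * k) := by
      refine le_trans ?_ h2
      exact Nat.le_mul_of_pos_right _ (by positivity)
    calc (WW.card : ℝ) ≤ ((4 * 2 ^ (2 * q * k) : ℕ) : ℝ) := by exact_mod_cast h1.trans h3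
      _ = _ := by push_cast; ring
  have hk1 : 1 ≤ k := by
    by_contra hk
    have hk0 : k = 0 := by omega
    subst hk0
    have h2 := Nat.le_mul_of_pos_left (2 * q * 0 + q + 6) (show 0 < 2 ^ (q + 3) by positivity)
    rw [pow_zero] at hcond
    omega
  obtain ⟨A, hA1, hA2⟩ := exists_good TT WW (p := p) (β := β) hp0.le (by linarith)
    (by linarith) (by
      intro h
      have := hT3 _ h
      simp at this) (by
      intro h
      have := hWcard _ h
      rw [Finset.card_empty, zero_add] at this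
      have h2 : 2 ^ 1 ≤ 2 ^ k := Nat.pow_le_pow_right (by norm_num) hk1
      omega) (by
    intro v
    have hsum1 : ∑ T ∈ TT.filter (fun T => v ∈ T), p ^ T.card / β ^ (T.card - 1) ≤ p / 4 := by
      have h1 : ∀ T ∈ TT.filter (fun T => v ∈ T), p ^ T.card / β ^ (T.card - 1) =
          p ^ 3 / β ^ 2 := by
        intro T hT
        rw [Finset.mem_filter] at hT
        rw [hT3 T hT.1]
      rw [Finset.sum_congr rfl h1, Finset.sum_const, nsmul_eq_mul]
      have h2 : ((TT.filter (fun T => v ∈ T)).card : ℝ) ≤ 2 ^ (2 * q) := by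
        exact_mod_cast hTv v
      have h3 : 0 ≤ p ^ 3 / β ^ 2 := by positivity
      calc ((TT.filter (fun T => v ∈ T)).card : ℝ) * (p ^ 3 / β ^ 2)
          ≤ 2 ^ (2 * q) * (p ^ 3 / β ^ 2) := mul_le_mul_of_nonneg_right h2 h3
        _ = (p * 2 ^ q) ^ 2 * p / β ^ 2 := by
            rw [mul_comm 2 q, pow_mul]; ring
        _ = (1 / 16) * p / β ^ 2 := by rw [hp2]; norm_num
        _ ≤ p / 4 := by
            rw [div_le_iff₀ (by positivity)]
            have h4 : (7 / 8 : ℝ) ^ 2 ≤ β ^ 2 := pow_le_pow_left₀ (by norm_num) hβ0 2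
            nlinarith [mul_le_mul_of_nonneg_left h4 hp0.le]
    have hsum2 : ∑ W ∈ WW.filter (fun W => v ∈ W), (1 - p) ^ W.card / β ^ (W.card - 1) ≤
        p / 4 := by
      have hpβ : 1 - p ≤ β ^ 2 := by rw [hβ]; nlinarith [sq_nonneg p]
      have h1 : ∀ W ∈ WW.filter (fun W => v ∈ W), (1 - p) ^ W.card / β ^ (W.card - 1) ≤
          β ^ (2 ^ k) := by
        intro W hW
        rw [Finset.mem_filter] at hW
        have hc := hWcard W hW.1
        have hc2 : 2 ≤ 2 ^ k := by
          calc 2 = 2 ^ 1 := by norm_num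
            _ ≤ 2 ^ k := Nat.pow_le_pow_right (by norm_num) hk1
        rw [div_le_iff₀ (by positivity), ← pow_add]
        have e1 : 2 ^ k + (W.card - 1) = 2 * W.card := by omega
        rw [e1, pow_mul]
        exact pow_le_pow_left₀ (by linarith) hpβ _
      have h2 : β ^ (2 ^ k) ≤ (1 / 2) ^ (2 * q * k + q + 6) := by
        have h3 : β ≤ Real.exp (-(p / 2)) := by
          have := Real.add_one_le_exp (-(p / 2))
          rw [hβ]; linarith
        have h4 : β ^ (2 ^ k) ≤ Real.exp (-(p / 2) * (2 ^ k : ℕ)) := by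
          calc β ^ (2 ^ k) ≤ Real.exp (-(p / 2)) ^ (2 ^ k) :=
                pow_le_pow_left₀ (by linarith) h3 _
            _ = Real.exp (-(p / 2) * (2 ^ k : ℕ)) := by
                rw [← Real.exp_nat_mul]; congr 1; ring
        have h5 : ((2 * q * k + q + 6 : ℕ) : ℝ) ≤ p / 2 * (2 ^ k : ℕ) := by
          have h6 : ((2 ^ (q + 3) * (2 * q * k + q + 6) : ℕ) : ℝ) ≤ ((2 ^ k : ℕ) : ℝ) := by
            exact_mod_cast hcond
          have h7 : p / 2 * ((2 ^ (q + 3) * (2 * q * k + q + 6) : ℕ) : ℝ) =
              ((2 * q * k + q + 6 : ℕ) : ℝ) := by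
            have : (p * 2 ^ q) * 4 = 1 := by rw [hp2]; norm_num
            push_cast
            rw [pow_add]
            calc p / 2 * (2 ^ q * 2 ^ 3 * (2 * (q : ℝ) * k + q + 6))
                = (p * 2 ^ q * 4) * (2 * (q : ℝ) * k + q + 6) := by ring
              _ = _ := by rw [this]; ring
          rw [← h7]
          exact mul_le_mul_of_nonneg_left h6 (by positivity)
        have h8 : Real.exp (-(p / 2) * (2 ^ k : ℕ)) ≤
            Real.exp (-((2 * q * k + q + 6 : ℕ) : ℝ)) := by
          apply Real.exp_le_exp.mpr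
          linarith
        have h9 : Real.exp (-((2 * q * k + q + 6 : ℕ) : ℝ)) ≤ (1 / 2) ^ (2 * q * k + q + 6) := by
          have h10 : Real.exp (-1) ≤ 1 / 2 := by
            rw [Real.exp_neg]
            have h11 : (2 : ℝ) ≤ Real.exp 1 := by
              have := Real.add_one_le_exp (1 : ℝ)
              linarith
            rw [one_div]
            exact inv_anti₀ (by norm_num) h11
          calc Real.exp (-((2 * q * k + q + 6 : ℕ) : ℝ)) = Real.exp (-1) ^ (2 * q * k + q + 6) := by
                rw [← Real.exp_nat_mul]; congr 1; ring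
            _ ≤ _ := pow_le_pow_left₀ (Real.exp_pos _).le h10 _
        exact h4.trans (h8.trans h9)
      have hβk : 0 ≤ β ^ (2 ^ k) := by positivity
      calc ∑ W ∈ WW.filter (fun W => v ∈ W), (1 - p) ^ W.card / β ^ (W.card - 1)
          ≤ ∑ W ∈ WW.filter (fun W => v ∈ W), β ^ (2 ^ k) := Finset.sum_le_sum h1
        _ = ((WW.filter (fun W => v ∈ W)).card : ℝ) * β ^ (2 ^ k) := by
            rw [Finset.sum_const, nsmul_eq_mul]
        _ ≤ (WW.card : ℝ) * β ^ (2 ^ k) := by
            apply mul_le_mul_of_nonneg_right _ hβk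
            exact_mod_cast Finset.card_le_card (Finset.filter_subset _ _)
        _ ≤ (4 * 2 ^ (2 * q * k)) * (1 / 2) ^ (2 * q * k + q + 6) :=
            mul_le_mul hWnum h2 hβk (by positivity)
        _ = p / 4 := by
            rw [pow_add, pow_add, hp]
            have : (2 : ℝ) ^ (2 * q * k) * (1 / 2) ^ (2 * q * k) = 1 := by
              rw [← mul_pow]; norm_num
            calc 4 * (2 : ℝ) ^ (2 * q * k) * ((1 / 2) ^ (2 * q * k) * (1 / 2) ^ q * (1 / 2) ^ 6)
                = ((2 : ℝ) ^ (2 * q * k) * (1 / 2) ^ (2 * q * k)) * (1 / 2) ^ q * (1 / 16) := by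
                  ring
              _ = _ := by rw [this]; ring
    have : 1 - β = p / 2 := by rw [hβ]; ring
    linarith)
  refine ⟨fun _ => {x | x ∈ A ∧ x ≠ 0}, ?_, ?_⟩
  · rintro _ x ⟨hxA, hx0⟩ y ⟨hyA, hy0⟩ ⟨hxyA, hxy0⟩
    apply hA1 {x, y, x + y}
    · rw [Finset.mem_filter]
      exact ⟨Finset.mem_univ _, x, y, hx0, hy0, hxy0, rfl⟩
    · intro z hz
      simp only [Finset.mem_insert, Finset.mem_singleton] at hz
      rcases hz with rfl | rfl | rfl
      · exact hxA
      · exact hyA
      · exact hxyA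
  · intro W hW
    obtain ⟨x, hx⟩ := hA2 (Finset.univ.filter (fun x => x ∈ W ∧ x ≠ 0)) (by
      rw [Finset.mem_filter]
      refine ⟨Finset.mem_univ _, W, hW, fun x => ?_⟩
      rw [Finset.mem_filter]
      exact ⟨fun h => h.2, fun h => ⟨Finset.mem_univ _, h⟩⟩)
    rw [Finset.mem_inter, Finset.mem_filter] at hx
    exact ⟨0, x, hx.1.2.1, hx.2, hx.1.2.2⟩

end Pool.Agent.Helper22.SR
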