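import Pool.Agent.Helper22.SR.Pull
import Pool.Agent.Helper22.SR.Local

set_option autoImplicit false

/-!
# Constructions: random linear pullbacks, two more dimensions with one more colour, products
-/

open Module

namespace Pool.Agent.Helper22.SR

/-- **pullbacks** of one good sum-free set -/
theorem Avoid.pullback {j m : ℕ} (h : Avoid 1 (j + 1) m) (s d n : ℕ) (hjm : j ≤ m) (hjd : j ≤ d)
    (hnum : n * d + 2 + 2 * s < s * ((d - j) * (m - j)) + d * d) : Avoid s d n := by
  obtain ⟨A, hA, hW⟩ := h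
  obtain ⟨φ, hφ⟩ := exists_maps (Fin n → ZMod 2) (Fin m → ZMod 2) s d j
    (by rw [Module.finrank_fin_fun]; exact hjm) hjd
    (by rw [Module.finrank_fin_fun, Module.finrank_fin_fun]; exact hnum)
  refine ⟨fun i => (φ i) ⁻¹' (A 0), fun i x hx y hy hxy => ?_, fun D hD => ?_⟩
  · have : φ i (x + y) ∈ A 0 := hxy
    rw [map_add] at this
    exact hA 0 _ hx _ hy this
  · obtain ⟨i, hi⟩ := hφ D hD
    obtain ⟨Y, hY, hYd⟩ := exists_le_finrank (D.map (φ i)) (j + 1) hi
    obtain ⟨k, w, hw, hwA⟩ := hW Y hYd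
    obtain ⟨v, hv, hvw⟩ := hY hw
    refine ⟨i, v, hv, ?_⟩
    show φ i v ∈ A 0
    rw [hvw]
    have hk : k = 0 := Subsingleton.elim _ _
    rw [← hk]; exact hwA

/-- one more colour gives two more dimensions -/
theorem Avoid.add_two {s d n : ℕ} (h : Avoid s d n) (hd : 3 ≤ d) : Avoid (s + 1) d (n + 2) := by
  obtain ⟨A, hA, hW⟩ := h
  -- the space `F_2^n × F_2^2`
  set E := (Fin n → ZMod 2) × (Fin 2 → ZMod 2) with hE
  set e1 : Fin 2 → ZMod 2 := ![1, 0] with he1
  set e2 : Fin 2 → ZMod 2 := ![0, 1] with he2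
  set e3 : Fin 2 → ZMod 2 := ![1, 1] with he3
  have h12 : e1 + e2 = e3 := by decide
  have h11 : e1 + e1 = 0 := by decide
  have h22 : e2 + e2 = 0 := by decide
  have h33 : e3 + e3 = 0 := by decide
  have h21 : e2 + e1 = e3 := by decide
  have h13 : e1 + e3 = e2 := by decide
  have h31 : e3 + e1 = e2 := by decide
  have h23 : e2 + e3 = e1 := by decide
  have h32 : e3 + e2 = e1 := by decide
  have n10 : e1 ≠ 0 := by decide
  have n20 : e2 ≠ 0 := by decide
  have n30 : e3 ≠ 0 := by decide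
  have n12 : e1 ≠ e2 := by decide
  have n13 : e1 ≠ e3 := by decide
  have n23 : e2 ≠ e3 := by decide
  have hall : ∀ t : Fin 2 → ZMod 2, t = 0 ∨ t = e1 ∨ t = e2 ∨ t = e3 := by decide
  let B : Set E := {z | (z.1 ≠ 0 ∧ z.2 = e3) ∨ (z.1 = 0 ∧ (z.2 = e1 ∨ z.2 = e2))}
  have key : AvoidOn (Option (Fin s)) E d := by
    refine ⟨fun o => match o with
      | none => B
      | some i => (LinearMap.fst (ZMod 2) (Fin n → ZMod 2) (Fin 2 → ZMod 2)) ⁻¹' (A i), ?_, ?_⟩
    · rintro (_ | i) x hx y hy hxy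
      · obtain ⟨x1, x2⟩ := x
        obtain ⟨y1, y2⟩ := y
        have hx' : (x1 ≠ 0 ∧ x2 = e3) ∨ (x1 = 0 ∧ (x2 = e1 ∨ x2 = e2)) := hx
        have hy' : (y1 ≠ 0 ∧ y2 = e3) ∨ (y1 = 0 ∧ (y2 = e1 ∨ y2 = e2)) := hy
        have hxy' : (x1 + y1 ≠ 0 ∧ x2 + y2 = e3) ∨
          (x1 + y1 = 0 ∧ (x2 + y2 = e1 ∨ x2 + y2 = e2)) := hxy
        rcases hx' with ⟨hx1, rfl⟩ | ⟨rfl, rfl | rfl⟩ <;>
          rcases hy' with ⟨hy1, rfl⟩ | ⟨rfl, rfl | rfl⟩ <;>
          simp_all
      · have : x.1 + y.1 ∈ A i := hxy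
        exact hA i _ hx _ hy this
    · intro W hWd
      by_cases hinj : ∀ t : Fin 2 → ZMod 2, ((0 : Fin n → ZMod 2), t) ∈ W → t = 0
      · -- the projection is injective on `W`
        let π : W →ₗ[ZMod 2] (Fin n → ZMod 2) :=
          (LinearMap.fst (ZMod 2) (Fin n → ZMod 2) (Fin 2 → ZMod 2)) ∘ₗ W.subtype
        have hπ : Function.Injective π := by
          rw [← LinearMap.ker_eq_bot, LinearMap.ker_eq_bot']
          rintro ⟨⟨x, t⟩, hw⟩ h0
          have hx : x = 0 := h0
          subst hx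
          have ht := hinj t hw
          subst ht
          rfl
        have hfr : finrank (ZMod 2) (LinearMap.range π) = d := by
          rw [LinearMap.finrank_range_of_inj hπ, hWd]
        obtain ⟨i, w, ⟨v, hv⟩, hwA⟩ := hW (LinearMap.range π) hfr
        refine ⟨some i, v.1, v.2, ?_⟩
        show v.1.1 ∈ A i
        have : v.1.1 = w := hv
        rw [this]; exact hwA
      · push Not at hinj
        obtain ⟨t, ht, ht0⟩ := hinj
        refine ⟨none, ?_⟩
        rcases hall t with rfl | rfl | rfl | rfl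
        · exact absurd rfl ht0
        · exact ⟨_, ht, Or.inr ⟨rfl, Or.inl rfl⟩⟩
        · exact ⟨_, ht, Or.inr ⟨rfl, Or.inr rfl⟩⟩
        · -- a vector `(x, 0)` with `x ≠ 0`
          let ρ : W →ₗ[ZMod 2] (Fin 2 → ZMod 2) :=
            (LinearMap.snd (ZMod 2) (Fin n → ZMod 2) (Fin 2 → ZMod 2)) ∘ₗ W.subtype
          have h1 := LinearMap.finrank_range_add_finrank_ker ρ
          have h2 : finrank (ZMod 2) (LinearMap.range ρ) ≤ 2 := by
            have := Submodule.finrank_le (LinearMap.range ρ)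
            rw [Module.finrank_fin_fun] at this
            exact this
          have h3 : 0 < finrank (ZMod 2) (LinearMap.ker ρ) := by
            rw [hWd] at h1; omega
          have hne : LinearMap.ker ρ ≠ ⊥ := by
            intro h
            rw [h, finrank_bot] at h3
            exact lt_irrefl _ h3
          obtain ⟨⟨⟨x, u⟩, hw⟩, hker, hne0⟩ := Submodule.exists_mem_ne_zero_of_ne_bot hne
          have hu : u = 0 := hker
          subst hu
          have hx : x ≠ 0 := by
            rintro rfl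
            exact hne0 rfl
          refine ⟨(x, 0) + (0, e3), W.add_mem hw ht, Or.inl ⟨?_, ?_⟩⟩
          · show x + 0 ≠ 0
            rwa [add_zero]
          · show (0 : Fin 2 → ZMod 2) + e3 = e3
            rw [zero_add]
  apply key.toAvoid
  · rw [Fintype.card_option, Fintype.card_fin]
  · rw [Module.finrank_prod, Module.finrank_fin_fun, Module.finrank_fin_fun]

/-- products -/
theorem Avoid.prod {s t a b n m : ℕ} (h : Avoid s a n) (h' : Avoid t b m) (ha : 1 ≤ a)
    (hb : 1 ≤ b) : Avoid (s + t) (a + b - 1) (n + m) := by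
  obtain ⟨A, hA, hW⟩ := h
  obtain ⟨B, hB, hW'⟩ := h'
  set E := (Fin n → ZMod 2) × (Fin m → ZMod 2) with hE
  have key : AvoidOn (Fin s ⊕ Fin t) E (a + b - 1) := by
    refine ⟨fun o => match o with
      | Sum.inl i => {z | z.1 ∈ A i}
      | Sum.inr i => {z | z.1 = 0 ∧ z.2 ∈ B i}, ?_, ?_⟩
    · rintro (i | i) x hx y hy hxy
      · have : x.1 + y.1 ∈ A i := hxy
        exact hA i _ hx _ hy this
      · have : x.2 + y.2 ∈ B i := hxy.2
        exact hB i _ hx.2 _ hy.2 this
    · intro W hWd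
      let π : W →ₗ[ZMod 2] (Fin n → ZMod 2) :=
        (LinearMap.fst (ZMod 2) (Fin n → ZMod 2) (Fin m → ZMod 2)) ∘ₗ W.subtype
      have h1 := LinearMap.finrank_range_add_finrank_ker π
      rw [hWd] at h1
      by_cases hr : a ≤ finrank (ZMod 2) (LinearMap.range π)
      · obtain ⟨Y, hY, hYd⟩ := exists_le_finrank (LinearMap.range π) a hr
        obtain ⟨i, w, hw, hwA⟩ := hW Y hYd
        obtain ⟨v, hv⟩ := hY hw
        refine ⟨Sum.inl i, v.1, v.2, ?_⟩
        show v.1.1 ∈ A i
        have : v.1.1 = w := hv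
        rw [this]; exact hwA
      · have hk : b ≤ finrank (ZMod 2) (LinearMap.ker π) := by omega
        -- the kernel embeds into the second factor
        let ρ : LinearMap.ker π →ₗ[ZMod 2] (Fin m → ZMod 2) :=
          (LinearMap.snd (ZMod 2) (Fin n → ZMod 2) (Fin m → ZMod 2)) ∘ₗ W.subtype ∘ₗ
            (LinearMap.ker π).subtype
        have hρ : Function.Injective ρ := by
          rw [← LinearMap.ker_eq_bot, LinearMap.ker_eq_bot']
          rintro ⟨⟨⟨x, y⟩, hw⟩, hk⟩ h0
          have hx : x = 0 := hk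
          have hy : y = 0 := h0
          subst hx
          subst hy
          rfl
        have hfr : b ≤ finrank (ZMod 2) (LinearMap.range ρ) := by
          rw [LinearMap.finrank_range_of_inj hρ]; exact hk
        obtain ⟨Y, hY, hYd⟩ := exists_le_finrank (LinearMap.range ρ) b hfr
        obtain ⟨i, w, hw, hwB⟩ := hW' Y hYd
        obtain ⟨v, hv⟩ := hY hw
        refine ⟨Sum.inr i, v.1.1, v.1.2, ?_, ?_⟩
        · exact v.2
        · show v.1.1.2 ∈ B i
          have : v.1.1.2 = w := hv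
          rw [this]; exact hwB
  apply key.toAvoid
  · rw [Fintype.card_sum, Fintype.card_fin, Fintype.card_fin]
  · rw [Module.finrank_prod, Module.finrank_fin_fun, Module.finrank_fin_fun]

end Pool.Agent.Helper22.SR
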