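import Mathlib

set_option autoImplicit false

/-!
# Counting subspaces and linear maps over the field with two elements
-/

open Module Finset

namespace Pool.Agent.Helper22.SR

theorem natCard_F2 : Nat.card (ZMod 2) = 2 := by
  rw [Nat.card_eq_fintype_card, ZMod.card]

theorem natCard_eq {V : Type*} [AddCommGroup V] [Module (ZMod 2) V] [Module.Finite (ZMod 2) V] :
    Nat.card V = 2 ^ finrank (ZMod 2) V := by
  rw [Module.natCard_eq_pow_finrank (K := (ZMod 2)), natCard_F2]

/-- number of bases -/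
theorem prod_lower (j : ℕ) : 2 ^ (j * j) ≤ 4 * ∏ i ∈ range j, (2 ^ j - 2 ^ i) := by
  have hrec : ∀ j : ℕ, (∏ i ∈ range (j + 1), (2 ^ (j + 1) - 2 ^ i)) =
      (2 ^ (j + 1) - 1) * (2 ^ j * ∏ i ∈ range j, (2 ^ j - 2 ^ i)) := by
    intro j
    rw [Finset.prod_range_succ', pow_zero, mul_comm]
    congr 1
    have : ∀ i ∈ range j, 2 ^ (j + 1) - 2 ^ (i + 1) = 2 * (2 ^ j - 2 ^ i) := by
      intro i _
      rw [pow_succ, pow_succ, ← Nat.sub_mul]; ring
    rw [Finset.prod_congr rfl this, Finset.prod_mul_distrib, Finset.prod_const, Finset.card_range]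
  have hstrong : ∀ j : ℕ, 1 ≤ j → 2 ^ (j * j) * (2 ^ j + 2) ≤
      4 * (2 ^ j * ∏ i ∈ range j, (2 ^ j - 2 ^ i)) := by
    intro j hj
    induction j, hj using Nat.le_induction with
    | base => simp
    | succ j hj ih =>
      rw [hrec j]
      have h1 : 2 ≤ 2 ^ j := by
        calc 2 = 2 ^ 1 := by norm_num
          _ ≤ 2 ^ j := Nat.pow_le_pow_right (by norm_num) hj
      have h2 : 1 ≤ 2 ^ (j + 1) := Nat.one_le_two_pow
      obtain ⟨y, hy⟩ : ∃ y, 2 ^ j = y + 2 := ⟨2 ^ j - 2, by omega⟩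
      have h3 : 2 ^ (j + 1) - 1 = 2 * y + 3 := by
        rw [pow_succ, hy]; omega
      have h4 : 2 ^ ((j + 1) * (j + 1)) = 2 ^ (j * j) * (2 ^ j * 2 ^ j * 2) := by
        rw [← pow_add, ← pow_succ, ← pow_add]; congr 1; ring
      rw [h3, h4, pow_succ, hy]
      rw [hy] at ih
      calc 2 ^ (j * j) * ((y + 2) * (y + 2) * 2) * ((y + 2) * 2 + 2)
          ≤ 2 ^ (j * j) * (y + 2 + 2) * (((y + 2) * 2) * (2 * y + 3)) := by
            rw [mul_assoc (2 ^ (j * j)), mul_assoc (2 ^ (j * j))]
            apply Nat.mul_le_mul_left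
            nlinarith
        _ ≤ 4 * ((y + 2) * ∏ i ∈ range j, ((y + 2) - 2 ^ i)) * (((y + 2) * 2) * (2 * y + 3)) :=
            Nat.mul_le_mul_right _ ih
        _ = _ := by ring
  rcases Nat.eq_zero_or_pos j with h | h
  · subst h; simp
  · have h1 := hstrong j h
    have h2 : 0 < 2 ^ j := by positivity
    have h3 : 2 ^ (j * j) * 2 ^ j ≤ (4 * ∏ i ∈ range j, (2 ^ j - 2 ^ i)) * 2 ^ j := by
      calc 2 ^ (j * j) * 2 ^ j ≤ 2 ^ (j * j) * (2 ^ j + 2) :=
            Nat.mul_le_mul_left _ (by omega)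
        _ ≤ 4 * (2 ^ j * ∏ i ∈ range j, (2 ^ j - 2 ^ i)) := h1
        _ = _ := by ring
    exact Nat.le_of_mul_le_mul_right h3 h2

section

variable {V : Type*} [AddCommGroup V] [Module (ZMod 2) V] [Module.Finite (ZMod 2) V]

theorem finite_space (V : Type*) [AddCommGroup V] [Module (ZMod 2) V] [Module.Finite (ZMod 2) V] : Finite V :=
  Module.finite_of_finite (ZMod 2)

theorem finite_submodule (V : Type*) [AddCommGroup V] [Module (ZMod 2) V] [Module.Finite (ZMod 2) V] :
    Finite (Submodule (ZMod 2) V) := by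
  have := finite_space V
  exact Finite.of_injective (fun W : Submodule (ZMod 2) V => (W : Set V)) SetLike.coe_injective

/-- linearly independent families -/
theorem card_li (j : ℕ) (hj : j ≤ finrank (ZMod 2) V) :
    Nat.card {s : Fin j → V // LinearIndependent (ZMod 2) s} =
      ∏ i ∈ range j, (2 ^ finrank (ZMod 2) V - 2 ^ i) := by
  have := finite_space V
  rw [card_linearIndependent hj, ZMod.card, Finset.prod_range]

/-- **number of subspaces** -/
theorem card_subspaces (j : ℕ) :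
    Nat.card {W : Submodule (ZMod 2) V // finrank (ZMod 2) W = j} * 2 ^ (j * j) ≤
      4 * 2 ^ (finrank (ZMod 2) V * j) := by
  have hfV := finite_space V
  have hfS := finite_submodule V
  have hft : Fintype {W : Submodule (ZMod 2) V // finrank (ZMod 2) W = j} := Fintype.ofFinite _
  -- the map from pairs (W, basis of W)
  let F : (Σ W : {W : Submodule (ZMod 2) V // finrank (ZMod 2) W = j},
      {s : Fin j → W.1 // LinearIndependent (ZMod 2) s}) → (Fin j → V) :=
    fun x => fun i => ((x.2.1 i : x.1.1) : V)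
  have hspan : ∀ x, Submodule.span (ZMod 2) (Set.range (F x)) = x.1.1 := by
    rintro ⟨⟨W, hW⟩, s, hs⟩
    have h1 : Submodule.span (ZMod 2) (Set.range s) = ⊤ := by
      apply hs.span_eq_top_of_card_eq_finrank'
      rw [Fintype.card_fin, hW]
    have h2 : Set.range (F ⟨⟨W, hW⟩, s, hs⟩) = W.subtype '' (Set.range s) := by
      rw [← Set.range_comp]; rfl
    show Submodule.span (ZMod 2) (Set.range (F ⟨⟨W, hW⟩, s, hs⟩)) = W
    rw [h2, Submodule.span_image, h1, Submodule.map_top, Submodule.range_subtype]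
  have hinj : Function.Injective F := by
    intro x y hxy
    have h1 : x.1 = y.1 := by
      apply Subtype.ext
      rw [← hspan x, ← hspan y, hxy]
    obtain ⟨W, s, hs⟩ := x
    obtain ⟨W', s', hs'⟩ := y
    have h1' : W = W' := h1
    subst h1'
    congr 2
    funext i
    exact Subtype.ext (congrFun hxy i)
  have hcard := Nat.card_le_card_of_injective F hinj
  rw [Nat.card_sigma, Nat.card_fun, natCard_eq, Nat.card_eq_fintype_card (α := Fin j),
    Fintype.card_fin, ← pow_mul] at hcard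
  have hterm : ∀ W : {W : Submodule (ZMod 2) V // finrank (ZMod 2) W = j},
      Nat.card {s : Fin j → W.1 // LinearIndependent (ZMod 2) s} =
        ∏ i ∈ range j, (2 ^ j - 2 ^ i) := by
    rintro ⟨W, hW⟩
    have := card_li (V := W) j (by rw [hW])
    rw [this, hW]
  rw [Finset.sum_congr rfl (fun W _ => hterm W), Finset.sum_const, smul_eq_mul,
    Finset.card_univ, ← Nat.card_eq_fintype_card] at hcard
  calc Nat.card {W : Submodule (ZMod 2) V // finrank (ZMod 2) W = j} * 2 ^ (j * j)
      ≤ Nat.card {W : Submodule (ZMod 2) V // finrank (ZMod 2) W = j} *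
        (4 * ∏ i ∈ range j, (2 ^ j - 2 ^ i)) := Nat.mul_le_mul_left _ (prod_lower j)
    _ = 4 * (Nat.card {W : Submodule (ZMod 2) V // finrank (ZMod 2) W = j} *
        ∏ i ∈ range j, (2 ^ j - 2 ^ i)) := by ring
    _ ≤ 4 * 2 ^ (finrank (ZMod 2) V * j) := Nat.mul_le_mul_left _ hcard

/-- enlarging a subspace to a given dimension -/
theorem exists_ge_finrank (W : Submodule (ZMod 2) V) (j : ℕ) (h1 : finrank (ZMod 2) W ≤ j)
    (h2 : j ≤ finrank (ZMod 2) V) : ∃ Y : Submodule (ZMod 2) V, W ≤ Y ∧ finrank (ZMod 2) Y = j := by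
  induction j, h1 using Nat.le_induction with
  | base => exact ⟨W, le_rfl, rfl⟩
  | succ j _ ih =>
    obtain ⟨Y, hY, hYj⟩ := ih (by omega)
    have hne : Y ≠ ⊤ := by
      rintro rfl
      rw [finrank_top] at hYj
      omega
    obtain ⟨v, hv⟩ : ∃ v, v ∉ Y := by
      by_contra hcon
      push Not at hcon
      exact hne (eq_top_iff.mpr (fun x _ => hcon x))
    refine ⟨Y ⊔ Submodule.span (ZMod 2) {v}, hY.trans le_sup_left, ?_⟩
    rw [Submodule.finrank_sup_span_singleton hv, hYj]

/-- shrinking a subspace to a given dimension -/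
theorem exists_le_finrank (W : Submodule (ZMod 2) V) (j : ℕ) (h1 : j ≤ finrank (ZMod 2) W) :
    ∃ Y : Submodule (ZMod 2) V, Y ≤ W ∧ finrank (ZMod 2) Y = j := by
  obtain ⟨Y, _, hY⟩ := exists_ge_finrank (V := W) ⊥ j (by rw [finrank_bot]; omega) h1
  refine ⟨Y.map W.subtype, ?_, ?_⟩
  · rintro _ ⟨y, _, rfl⟩
    exact y.2
  · rw [Submodule.finrank_map_subtype_eq]
    exact hY

end

end Pool.Agent.Helper22.SR
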