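import Pool.Agent.Helper22.SR.Defs

set_option autoImplicit false

/-!
# Finiteness of the Ramsey numbers for subspaces of `F_2^n` (from Hindman's theorem)
-/

open Module Filter

namespace Pool.Agent.Helper22.SR

/-- finitely supported sequences -/
abbrev XX : Type := ℕ →₀ ZMod 2

/-- sums of distinct basis vectors do not vanish -/
theorem fs_basis (a : Stream' XX) (m : XX) (hm : m ∈ Hindman.FS a) :
    ∀ k, (∀ i, a.get i = Finsupp.single (k + i) 1) → m ≠ 0 ∧ ∀ j < k, m j = 0 := by
  induction hm with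
  | head' a =>
    intro k hk
    have h0 : a.head = Finsupp.single k 1 := by
      have := hk 0
      rwa [add_zero] at this
    rw [h0]
    refine ⟨?_, fun j hj => ?_⟩
    · intro h
      have := DFunLike.congr_fun h k
      rw [Finsupp.single_eq_same, Finsupp.zero_apply] at this
      exact one_ne_zero this
    · rw [Finsupp.single_apply, if_neg (by omega)]
  | tail' a m _ ih =>
    intro k hk
    have h1 := ih (k + 1) (fun i => by
      have := hk (i + 1)
      rw [show k + 1 + i = k + (i + 1) by ring]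
      exact this)
    exact ⟨h1.1, fun j hj => h1.2 j (by omega)⟩
  | cons' a m _ ih =>
    intro k hk
    have h0 : a.head = Finsupp.single k 1 := by
      have := hk 0
      rwa [add_zero] at this
    have h1 := ih (k + 1) (fun i => by
      have := hk (i + 1)
      rw [show k + 1 + i = k + (i + 1) by ring]
      exact this)
    refine ⟨?_, fun j hj => ?_⟩
    · intro h
      have := DFunLike.congr_fun h k
      rw [Finsupp.add_apply, h0, Finsupp.single_eq_same, h1.2 k (by omega), add_zero,
        Finsupp.zero_apply] at this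
      exact one_ne_zero this
    · rw [Finsupp.add_apply, h0, Finsupp.single_apply, if_neg (by omega), h1.2 j (by omega),
        add_zero]

/-- restriction to the first `N` coordinates -/
def res (N : ℕ) : XX →ₗ[ZMod 2] (Fin N → ZMod 2) where
  toFun x := fun j => x j
  map_add' x y := by ext j; simp
  map_smul' c x := by ext j; simp

theorem res_ne_zero (x : XX) (hx : x ≠ 0) : ∃ N0, ∀ N, N0 ≤ N → res N x ≠ 0 := by
  obtain ⟨j, hj⟩ : ∃ j, x j ≠ 0 := by
    by_contra hcon
    push Not at hcon
    exact hx (Finsupp.ext hcon)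
  refine ⟨j + 1, fun N hN h => hj ?_⟩
  exact congrFun h ⟨j, by omega⟩

theorem exists_arrows (r d : ℕ) : ∃ N, Arrows r d N := by
  by_contra hcon
  push Not at hcon
  have hc : ∀ N, ∃ c : {v : Fin N → ZMod 2 // v ≠ 0} → Fin r,
      (∀ i : Fin r, (i : ℕ) + 1 < r → ∀ W : Submodule (ZMod 2) (Fin N → ZMod 2),
        finrank (ZMod 2) W = 2 → ∃ v, v.1 ∈ W ∧ c v ≠ i) ∧
      (∀ W : Submodule (ZMod 2) (Fin N → ZMod 2),
        finrank (ZMod 2) W = d → ∃ v, v.1 ∈ W ∧ (c v : ℕ) + 1 ≠ r) := by
    intro N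
    have := hcon N
    unfold Arrows at this
    push Not at this
    exact this
  choose c hc1 hc2 using hc
  let U : Ultrafilter ℕ := hyperfilter ℕ
  have hUlarge : ∀ N0, ∀ᶠ N in (U : Filter ℕ), N0 ≤ N := by
    intro N0
    have h1 : ∀ᶠ N in (atTop : Filter ℕ), N0 ≤ N := eventually_ge_atTop N0
    have h2 : (U : Filter ℕ) ≤ atTop := by
      rw [← Nat.cofinite_eq_atTop]
      exact hyperfilter_le_cofinite
    exact h2 h1
  -- the limit colouring
  have hlim : ∀ x : XX, x ≠ 0 → ∃ i : Fin r, ∀ᶠ N in (U : Filter ℕ),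
      ∃ h : res N x ≠ 0, c N ⟨res N x, h⟩ = i := by
    intro x hx
    rw [← Ultrafilter.eventually_exists_iff]
    obtain ⟨N0, hN0⟩ := res_ne_zero x hx
    filter_upwards [hUlarge N0] with N hN
    exact ⟨_, hN0 N hN, rfl⟩
  -- Hindman's theorem
  let a : Stream' XX := fun i => Finsupp.single i 1
  let S : Set (Set XX) := Set.range (fun i : Fin r =>
    {x : XX | x ≠ 0 ∧ ∀ᶠ N in (U : Filter ℕ), ∃ h : res N x ≠ 0, c N ⟨res N x, h⟩ = i})
  obtain ⟨C, ⟨i, rfl⟩, b, hb⟩ := Hindman.FS_partition_regular a S (Set.finite_range _) (by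
    intro x hx
    have hx0 := (fs_basis a x hx 0 (fun i => by rw [zero_add]; rfl)).1
    obtain ⟨i, hi⟩ := hlim x hx0
    exact ⟨_, ⟨i, rfl⟩, hx0, hi⟩)
  -- a linear map with all non-zero values in the `FS`-set
  have hL : ∀ e : ℕ, ∃ L : (Fin e → ZMod 2) →ₗ[ZMod 2] XX, ∀ t, t ≠ 0 →
      L t ∈ Hindman.FS b := by
    intro e
    refine ⟨Fintype.linearCombination (ZMod 2) (fun k : Fin e => b.get k), fun t ht => ?_⟩
    rw [Fintype.linearCombination_apply]
    have h1 : ∑ k : Fin e, t k • b.get k =
        ∑ k ∈ (Finset.univ.filter (fun k : Fin e => t k ≠ 0)).map Fin.valEmbedding,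
          b.get k := by
      rw [Finset.sum_map, Finset.sum_filter]
      apply Finset.sum_congr rfl
      intro k _
      rcases zmod2_cases (t k) with h | h
      · rw [h, zero_smul, if_neg (by simp)]
      · rw [h, one_smul, if_pos (by decide)]; rfl
    rw [h1]
    apply Hindman.FS.finsetSum
    obtain ⟨k, hk⟩ : ∃ k, t k ≠ 0 := by
      by_contra hcon
      push Not at hcon
      exact ht (funext hcon)
    exact ⟨k, by
      rw [Finset.mem_map]
      exact ⟨k, by rw [Finset.mem_filter]; exact ⟨Finset.mem_univ _, hk⟩, rfl⟩⟩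
  have hmain : ∀ e : ℕ, ∃ (N : ℕ) (W : Submodule (ZMod 2) (Fin N → ZMod 2)),
      finrank (ZMod 2) W = e ∧ ∀ v, v.1 ∈ W → c N v = i := by
    intro e
    obtain ⟨L, hLb⟩ := hL e
    have h1 : ∀ᶠ N in (U : Filter ℕ), ∀ t : Fin e → ZMod 2, t ≠ 0 →
        ∃ h : res N (L t) ≠ 0, c N ⟨res N (L t), h⟩ = i := by
      rw [Filter.eventually_all]
      intro t
      by_cases ht : t = 0
      · filter_upwards with N h
        exact absurd ht h
      · have := (hb (hLb t ht)).2
        filter_upwards [this] with N hN _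
        exact hN
    obtain ⟨N, hN⟩ := h1.exists
    have hinj : Function.Injective (res N ∘ₗ L) := by
      rw [← LinearMap.ker_eq_bot, LinearMap.ker_eq_bot']
      intro t ht
      by_contra h0
      exact (hN t h0).1 ht
    refine ⟨N, LinearMap.range (res N ∘ₗ L), ?_, ?_⟩
    · rw [LinearMap.finrank_range_of_inj hinj, Module.finrank_fin_fun]
    · rintro ⟨v, hv0⟩ ⟨t, ht⟩
      have ht' : res N (L t) = v := ht
      have ht0 : t ≠ 0 := by
        rintro rfl
        apply hv0
        show v = 0
        rw [← ht', map_zero, map_zero]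
      obtain ⟨h, hh⟩ := hN t ht0
      rw [← hh]
      congr 1
      exact Subtype.ext ht'.symm
  by_cases hi : (i : ℕ) + 1 < r
  · obtain ⟨N, W, hW, hWc⟩ := hmain 2
    obtain ⟨v, hv, hvc⟩ := hc1 N i hi W hW
    exact hvc (hWc v hv)
  · obtain ⟨N, W, hW, hWc⟩ := hmain d
    obtain ⟨v, hv, hvc⟩ := hc2 N W hW
    apply hvc
    rw [hWc v hv]
    have := i.2
    omega

end Pool.Agent.Helper22.SR
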