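import Pool.Agent.Helper22.SR.Construct
import Pool.Agent.Helper22.SR.Finite

set_option autoImplicit false

/-!
# Lower bounds for the Ramsey numbers
-/

open Module Filter

namespace Pool.Agent.Helper22.SR

theorem lt_ramsey {s d n : ℕ} (h : Avoid s d n) : n < ramseyF2 (s + 1) d :=
  (lt_ramsey_iff (exists_arrows _ _)).mpr h

theorem avoid_of_lt {s d n : ℕ} (h : n < ramseyF2 (s + 1) d) : Avoid s d n :=
  (lt_ramsey_iff (exists_arrows _ _)).mp h

theorem avoid_zero (s d : ℕ) (hd : 1 ≤ d) : Avoid s d 0 := by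
  refine ⟨fun _ => ∅, fun i x hx => absurd hx (Set.notMem_empty x), fun W hW => ?_⟩
  have h1 := Submodule.finrank_le W
  rw [Module.finrank_fin_fun, hW] at h1
  omega

theorem ramsey_pos (s d : ℕ) (hd : 1 ≤ d) : 0 < ramseyF2 (s + 1) d :=
  lt_ramsey (avoid_zero s d hd)

/-- monotonicity in the number of colours -/
theorem ramsey_mono {s s' d : ℕ} (hd : 1 ≤ d) (hs : s ≤ s') :
    ramseyF2 (s + 1) d ≤ ramseyF2 (s' + 1) d := by
  have h0 := ramsey_pos s d hd
  have h1 : Avoid s d (ramseyF2 (s + 1) d - 1) := avoid_of_lt (by omega)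
  have h2 := lt_ramsey (h1.mono_s hs)
  omega

/-- one more colour: at least two more dimensions -/
theorem ramsey_add_two (s d : ℕ) (hd : 3 ≤ d) :
    ramseyF2 (s + 1) d + 2 ≤ ramseyF2 (s + 2) d := by
  have h0 := ramsey_pos s d (by omega)
  have h1 : Avoid s d (ramseyF2 (s + 1) d - 1) := avoid_of_lt (by omega)
  have h2 : ramseyF2 (s + 1) d - 1 + 2 < ramseyF2 (s + 2) d := lt_ramsey (h1.add_two hd)
  omega

/-- products -/
theorem ramsey_prod (s t a b : ℕ) (ha : 1 ≤ a) (hb : 1 ≤ b) :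
    ramseyF2 (s + 1) a + ramseyF2 (t + 1) b ≤ ramseyF2 (s + t + 1) (a + b - 1) + 1 := by
  have h0 := ramsey_pos s a ha
  have h0' := ramsey_pos t b hb
  have h1 : Avoid s a (ramseyF2 (s + 1) a - 1) := avoid_of_lt (by omega)
  have h1' : Avoid t b (ramseyF2 (t + 1) b - 1) := avoid_of_lt (by omega)
  have h2 := lt_ramsey (h1.prod h1' ha hb)
  omega

/-- the local lemma bound -/
theorem ramsey_two_lower (d : ℕ) (hd : 1 ≤ d) :
    2 * (d : ℝ) - 4 * Real.logb 2 d - 15 ≤ ramseyF2 2 d := by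
  set L := Nat.clog 2 (2 * d * d + d + 6) with hL
  have hpow : 2 * d * d + d + 6 ≤ 2 ^ L := Nat.le_pow_clog (by norm_num) _
  have hd1 : (1 : ℝ) ≤ d := by exact_mod_cast hd
  have hlog0 : 0 ≤ Real.logb 2 d := Real.logb_nonneg (by norm_num) hd1
  -- upper bound for `L`
  have hLup : (L : ℝ) ≤ 2 * Real.logb 2 d + 5 := by
    have h1 : 2 ^ (L - 1) < 2 * d * d + d + 6 := by
      have := Nat.pow_pred_clog_lt_self (b := 2) (by norm_num) (x := 2 * d * d + d + 6) (by omega)
      exact this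
    have hL1 : 1 ≤ L := by
      by_contra h
      have : L = 0 := by omega
      rw [this, pow_zero] at hpow
      omega
    have h2 : (2 : ℝ) ^ (L - 1) ≤ 9 * (d : ℝ) ^ 2 := by
      have h3 : ((2 ^ (L - 1) : ℕ) : ℝ) ≤ ((2 * d * d + d + 6 : ℕ) : ℝ) := by
        exact_mod_cast h1.le
      push_cast at h3
      nlinarith
    have h4 : ((L - 1 : ℕ) : ℝ) ≤ Real.logb 2 (9 * (d : ℝ) ^ 2) := by
      rw [Real.le_logb_iff_rpow_le (by norm_num) (by positivity), Real.rpow_natCast]
      exact h2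
    have h5 : Real.logb 2 (9 * (d : ℝ) ^ 2) = Real.logb 2 9 + 2 * Real.logb 2 d := by
      rw [Real.logb_mul (by norm_num) (by positivity), Real.logb_pow]
      norm_num
    have h6 : Real.logb 2 9 ≤ 4 := by
      rw [Real.logb_le_iff_le_rpow (by norm_num) (by norm_num)]
      norm_num
    have h7 : ((L - 1 : ℕ) : ℝ) = (L : ℝ) - 1 := by
      rw [Nat.cast_sub hL1, Nat.cast_one]
    rw [h5, h7] at h4
    linarith
  by_cases hdL : 3 + L ≤ d
  · obtain ⟨q, hq⟩ : ∃ q, d = q + 3 + L := ⟨d - 3 - L, by omega⟩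
    have h1 : Avoid 1 d (2 * q) := by
      apply avoid_local q d
      have h2 : 2 * q * d + q + 6 ≤ 2 * d * d + d + 6 := by
        have : q ≤ d := by omega
        have h3 : 2 * q * d ≤ 2 * d * d := Nat.mul_le_mul_right d (Nat.mul_le_mul_left 2 this)
        omega
      calc 2 ^ (q + 3) * (2 * q * d + q + 6) ≤ 2 ^ (q + 3) * 2 ^ L :=
            Nat.mul_le_mul_left _ (h2.trans hpow)
        _ = 2 ^ d := by rw [← pow_add, ← hq]
    have h2 := lt_ramsey h1
    have h3 : ((2 * q + 1 : ℕ) : ℝ) ≤ ramseyF2 2 d := by exact_mod_cast h2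
    have h4 : (d : ℝ) = q + 3 + L := by exact_mod_cast hq
    push_cast at h3
    linarith
  · have h1 : (d : ℝ) < 3 + L := by
      have : d < 3 + L := by omega
      exact_mod_cast this
    have h2 : (1 : ℝ) ≤ ramseyF2 2 d := by
      have := ramsey_pos 1 d hd
      exact_mod_cast this
    linarith

/-- lower bound `c d` for every `c < 2` -/
theorem eventually_ramsey_lower (c : ℝ) (hc : c < 2) : ∀ᶠ d : ℕ in atTop, ∀ s, 1 ≤ s →
    c * d ≤ ramseyF2 (s + 1) d := by
  have h1 : ∀ᶠ d : ℕ in atTop, 4 * Real.logb 2 d + 15 ≤ (2 - c) * d := by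
    have h2 : (fun d : ℕ => 4 * Real.logb 2 d + 15) =o[atTop] (fun d : ℕ => (d : ℝ)) := by
      have h3 : (fun x : ℝ => Real.log x) =o[atTop] (fun x : ℝ => x) :=
        Real.isLittleO_log_id_atTop
      have h4 : (fun d : ℕ => Real.log d) =o[atTop] (fun d : ℕ => (d : ℝ)) :=
        h3.comp_tendsto tendsto_natCast_atTop_atTop
      have h5 : (fun d : ℕ => 4 * Real.logb 2 d) =o[atTop] (fun d : ℕ => (d : ℝ)) := by
        have : (fun d : ℕ => 4 * Real.logb 2 d) = fun d : ℕ => (4 / Real.log 2) * Real.log d := by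
          funext d
          rw [Real.logb]
          ring
        rw [this]
        exact h4.const_mul_left _
      have h6 : (fun _ : ℕ => (15 : ℝ)) =o[atTop] (fun d : ℕ => (d : ℝ)) := by
        rw [Asymptotics.isLittleO_const_left]
        right
        have := tendsto_natCast_atTop_atTop (R := ℝ)
        exact tendsto_norm_atTop_atTop.comp this
      exact h5.add h6
    have h7 := h2.bound (show (0 : ℝ) < 2 - c by linarith)
    filter_upwards [h7] with d hd
    rw [Real.norm_eq_abs, Real.norm_eq_abs, Nat.abs_cast] at hd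
    exact (le_abs_self _).trans hd
  filter_upwards [h1, eventually_ge_atTop 1] with d hd hd1 s hs
  have h2 := ramsey_two_lower d hd1
  have h3 : (ramseyF2 2 d : ℝ) ≤ ramseyF2 (s + 1) d := by
    have := ramsey_mono (s := 1) (s' := s) hd1 hs
    exact_mod_cast this
  linarith

/-- general pullback of `s` colours by `t` maps -/
theorem Avoid.pullback_many {s j m : ℕ} (h : Avoid s (j + 1) m) (t d n : ℕ) (hjm : j ≤ m)
    (hjd : j ≤ d) (hnum : n * d + 2 + 2 * t < t * ((d - j) * (m - j)) + d * d) :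
    Avoid (s * t) d n := by
  obtain ⟨A, hA, hW⟩ := h
  obtain ⟨φ, hφ⟩ := exists_maps (Fin n → ZMod 2) (Fin m → ZMod 2) t d j
    (by rw [Module.finrank_fin_fun]; exact hjm) hjd
    (by rw [Module.finrank_fin_fun, Module.finrank_fin_fun]; exact hnum)
  have key : AvoidOn (Fin s × Fin t) (Fin n → ZMod 2) d := by
    refine ⟨fun i => (φ i.2) ⁻¹' (A i.1), fun i x hx y hy hxy => ?_, fun D hD => ?_⟩
    · have : φ i.2 (x + y) ∈ A i.1 := hxy
      rw [map_add] at this
      exact hA i.1 _ hx _ hy this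
    · obtain ⟨i, hi⟩ := hφ D hD
      obtain ⟨Y, hY, hYd⟩ := exists_le_finrank (D.map (φ i)) (j + 1) hi
      obtain ⟨k, w, hw, hwA⟩ := hW Y hYd
      obtain ⟨v, hv, hvw⟩ := hY hw
      refine ⟨(k, i), v, hv, ?_⟩
      show φ i v ∈ A k
      rw [hvw]
      exact hwA
  apply key.toAvoid
  · rw [Fintype.card_prod, Fintype.card_fin, Fintype.card_fin]
  · rw [Module.finrank_fin_fun]

end Pool.Agent.Helper22.SR
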