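import Pool.Agent.Helper22.SR.Count

set_option autoImplicit false

/-!
# Random linear maps do not lower the dimension of every subspace too much
-/

open Module Finset

namespace Pool.Agent.Helper22.SR

section

variable {U V : Type*} [AddCommGroup U] [Module (ZMod 2) U] [Module.Finite (ZMod 2) U]
  [AddCommGroup V] [Module (ZMod 2) V] [Module.Finite (ZMod 2) V]

/-- composition with the restriction to `D` and the projection modulo `Y` -/
noncomputable def resMod (D : Submodule (ZMod 2) U) (Y : Submodule (ZMod 2) V) :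
    (U →ₗ[(ZMod 2)] V) →ₗ[(ZMod 2)] (D →ₗ[(ZMod 2)] (V ⧸ Y)) where
  toFun φ := Y.mkQ ∘ₗ φ ∘ₗ D.subtype
  map_add' φ ψ := by ext x; simp
  map_smul' c φ := by ext x; simp

omit [Module.Finite (ZMod 2) U] in
theorem resMod_surjective (D : Submodule (ZMod 2) U) (Y : Submodule (ZMod 2) V) :
    Function.Surjective (resMod D Y) := by
  intro g
  obtain ⟨σ, hσ⟩ := LinearMap.exists_rightInverse_of_surjective Y.mkQ
    (LinearMap.range_eq_top.mpr (Submodule.mkQ_surjective Y))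
  obtain ⟨φ, hφ⟩ := LinearMap.exists_extend (σ ∘ₗ g)
  refine ⟨φ, ?_⟩
  show Y.mkQ ∘ₗ (φ ∘ₗ D.subtype) = g
  rw [hφ, ← LinearMap.comp_assoc, hσ, LinearMap.id_comp]

omit [Module.Finite (ZMod 2) U] [Module.Finite (ZMod 2) V] in
theorem mem_ker_resMod (D : Submodule (ZMod 2) U) (Y : Submodule (ZMod 2) V) (φ : U →ₗ[(ZMod 2)] V) :
    φ ∈ LinearMap.ker (resMod D Y) ↔ ∀ x ∈ D, φ x ∈ Y := by
  rw [LinearMap.mem_ker]
  constructor
  · intro h x hx
    have := LinearMap.congr_fun h ⟨x, hx⟩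
    have h2 : Y.mkQ (φ x) = 0 := this
    rw [Submodule.mkQ_apply, Submodule.Quotient.mk_eq_zero] at h2
    exact h2
  · intro h
    ext x
    show Y.mkQ (φ x) = 0
    rw [Submodule.mkQ_apply, Submodule.Quotient.mk_eq_zero]
    exact h x x.2

/-- maps sending `D` into `Y` -/
theorem card_maps (D : Submodule (ZMod 2) U) (Y : Submodule (ZMod 2) V) :
    Nat.card {φ : U →ₗ[(ZMod 2)] V // ∀ x ∈ D, φ x ∈ Y} *
      2 ^ (finrank (ZMod 2) D * (finrank (ZMod 2) V - finrank (ZMod 2) Y)) = 2 ^ (finrank (ZMod 2) U * finrank (ZMod 2) V) := by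
  have h1 : Nat.card {φ : U →ₗ[(ZMod 2)] V // ∀ x ∈ D, φ x ∈ Y} =
      2 ^ finrank (ZMod 2) (LinearMap.ker (resMod D Y)) := by
    rw [← natCard_eq]
    apply Nat.card_congr
    exact Equiv.subtypeEquivRight (fun φ => (mem_ker_resMod D Y φ).symm)
  rw [h1, ← pow_add]
  congr 1
  have h2 := LinearMap.finrank_range_add_finrank_ker (resMod D Y)
  rw [LinearMap.range_eq_top.mpr (resMod_surjective D Y), finrank_top,
    Module.finrank_linearMap, Module.finrank_linearMap] at h2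
  have h3 := Submodule.finrank_quotient_add_finrank Y
  have h4 : finrank (ZMod 2) (V ⧸ Y) = finrank (ZMod 2) V - finrank (ZMod 2) Y := by omega
  rw [h4] at h2
  rw [← h2]; ring

theorem finite_hom : Finite (U →ₗ[(ZMod 2)] V) := finite_space _

/-- maps lowering the dimension of `D` to at most `j` -/
theorem card_bad (D : Submodule (ZMod 2) U) (j : ℕ) (hj : j ≤ finrank (ZMod 2) V) (hjd : j ≤ finrank (ZMod 2) D) :
    Nat.card {φ : U →ₗ[(ZMod 2)] V // finrank (ZMod 2) (D.map φ) ≤ j} *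
      2 ^ ((finrank (ZMod 2) D - j) * (finrank (ZMod 2) V - j)) ≤ 4 * 2 ^ (finrank (ZMod 2) U * finrank (ZMod 2) V) := by
  have hf1 : Finite (U →ₗ[(ZMod 2)] V) := finite_hom
  have hf2 := finite_submodule V
  have hft : Fintype {Y : Submodule (ZMod 2) V // finrank (ZMod 2) Y = j} := Fintype.ofFinite _
  have hex : ∀ φ : {φ : U →ₗ[(ZMod 2)] V // finrank (ZMod 2) (D.map φ) ≤ j},
      ∃ Y : {Y : Submodule (ZMod 2) V // finrank (ZMod 2) Y = j}, ∀ x ∈ D, φ.1 x ∈ Y.1 := by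
    rintro ⟨φ, hφ⟩
    obtain ⟨Y, hY, hYj⟩ := exists_ge_finrank (D.map φ) j hφ hj
    exact ⟨⟨Y, hYj⟩, fun x hx => hY (Submodule.mem_map_of_mem hx)⟩
  choose Yf hYf using hex
  let F : {φ : U →ₗ[(ZMod 2)] V // finrank (ZMod 2) (D.map φ) ≤ j} →
      (Σ Y : {Y : Submodule (ZMod 2) V // finrank (ZMod 2) Y = j}, {φ : U →ₗ[(ZMod 2)] V // ∀ x ∈ D, φ x ∈ Y.1}) :=
    fun φ => ⟨Yf φ, ⟨φ.1, hYf φ⟩⟩
  have hF : Function.Injective F := by
    intro φ ψ h
    have h2 : ∀ a b : (Σ Y : {Y : Submodule (ZMod 2) V // finrank (ZMod 2) Y = j},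
        {φ : U →ₗ[(ZMod 2)] V // ∀ x ∈ D, φ x ∈ Y.1}), a = b → a.2.1 = b.2.1 := by
      rintro a b rfl; rfl
    exact Subtype.ext (h2 _ _ h)
  have hcard := Nat.card_le_card_of_injective F hF
  rw [Nat.card_sigma] at hcard
  set d := finrank (ZMod 2) D
  set n := finrank (ZMod 2) U
  set m := finrank (ZMod 2) V
  have hterm : ∀ Y : {Y : Submodule (ZMod 2) V // finrank (ZMod 2) Y = j},
      Nat.card {φ : U →ₗ[(ZMod 2)] V // ∀ x ∈ D, φ x ∈ Y.1} * 2 ^ (d * (m - j)) = 2 ^ (n * m) := by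
    rintro ⟨Y, hY⟩
    have := card_maps D Y
    rw [hY] at this
    exact this
  have h1 : Nat.card {φ : U →ₗ[(ZMod 2)] V // finrank (ZMod 2) (D.map φ) ≤ j} * 2 ^ (d * (m - j)) ≤
      Nat.card {Y : Submodule (ZMod 2) V // finrank (ZMod 2) Y = j} * 2 ^ (n * m) := by
    calc Nat.card {φ : U →ₗ[(ZMod 2)] V // finrank (ZMod 2) (D.map φ) ≤ j} * 2 ^ (d * (m - j))
        ≤ (∑ Y : {Y : Submodule (ZMod 2) V // finrank (ZMod 2) Y = j},
            Nat.card {φ : U →ₗ[(ZMod 2)] V // ∀ x ∈ D, φ x ∈ Y.1}) * 2 ^ (d * (m - j)) :=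
          Nat.mul_le_mul_right _ hcard
      _ = ∑ Y : {Y : Submodule (ZMod 2) V // finrank (ZMod 2) Y = j}, 2 ^ (n * m) := by
          rw [Finset.sum_mul]
          exact Finset.sum_congr rfl (fun Y _ => hterm Y)
      _ = _ := by
          rw [Finset.sum_const, smul_eq_mul, Finset.card_univ, ← Nat.card_eq_fintype_card]
  have h2 := card_subspaces (V := V) j
  have h3 : (d - j) * (m - j) + m * j = d * (m - j) + j * j := by
    obtain ⟨a, ha⟩ : ∃ a, d = j + a := ⟨d - j, by omega⟩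
    obtain ⟨b, hb⟩ : ∃ b, m = j + b := ⟨m - j, by omega⟩
    rw [ha, hb]
    have e1 : j + a - j = a := by omega
    have e2 : j + b - j = b := by omega
    rw [e1, e2]; ring
  have h4 : (Nat.card {φ : U →ₗ[(ZMod 2)] V // finrank (ZMod 2) (D.map φ) ≤ j} *
      2 ^ ((d - j) * (m - j))) * 2 ^ (m * j) ≤ (4 * 2 ^ (n * m)) * 2 ^ (m * j) := by
    calc (Nat.card {φ : U →ₗ[(ZMod 2)] V // finrank (ZMod 2) (D.map φ) ≤ j} *
          2 ^ ((d - j) * (m - j))) * 2 ^ (m * j)
        = (Nat.card {φ : U →ₗ[(ZMod 2)] V // finrank (ZMod 2) (D.map φ) ≤ j} * 2 ^ (d * (m - j))) *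
            2 ^ (j * j) := by
          rw [mul_assoc, ← pow_add, h3, pow_add, ← mul_assoc]
      _ ≤ (Nat.card {Y : Submodule (ZMod 2) V // finrank (ZMod 2) Y = j} * 2 ^ (n * m)) * 2 ^ (j * j) :=
          Nat.mul_le_mul_right _ h1
      _ = (Nat.card {Y : Submodule (ZMod 2) V // finrank (ZMod 2) Y = j} * 2 ^ (j * j)) * 2 ^ (n * m) := by
          ring
      _ ≤ (4 * 2 ^ (m * j)) * 2 ^ (n * m) := Nat.mul_le_mul_right _ h2
      _ = _ := by ring
  exact Nat.le_of_mul_le_mul_right h4 (by positivity)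

/-- **The pullback lemma**: `s` linear maps such that every `d`-dimensional subspace has an image
of dimension more than `j` under one of them. -/
theorem exists_maps (U V : Type*) [AddCommGroup U] [Module (ZMod 2) U] [Module.Finite (ZMod 2) U]
    [AddCommGroup V] [Module (ZMod 2) V] [Module.Finite (ZMod 2) V] (s d j : ℕ)
    (hj : j ≤ finrank (ZMod 2) V) (hjd : j ≤ d)
    (hnum : finrank (ZMod 2) U * d + 2 + 2 * s < s * ((d - j) * (finrank (ZMod 2) V - j)) + d * d) :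
    ∃ φ : Fin s → (U →ₗ[(ZMod 2)] V), ∀ D : Submodule (ZMod 2) U, finrank (ZMod 2) D = d →
      ∃ i, j < finrank (ZMod 2) (D.map (φ i)) := by
  by_contra hcon
  push Not at hcon
  have hf1 : Finite (U →ₗ[(ZMod 2)] V) := finite_hom
  have hf2 := finite_submodule U
  have hft : Fintype {D : Submodule (ZMod 2) U // finrank (ZMod 2) D = d} := Fintype.ofFinite _
  choose Df hDf using hcon
  let F : (Fin s → (U →ₗ[(ZMod 2)] V)) →
      (Σ D : {D : Submodule (ZMod 2) U // finrank (ZMod 2) D = d},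
        (Fin s → {φ : U →ₗ[(ZMod 2)] V // finrank (ZMod 2) (D.1.map φ) ≤ j})) :=
    fun φ => ⟨⟨Df φ, (hDf φ).1⟩, fun i => ⟨φ i, (hDf φ).2 i⟩⟩
  have hF : Function.Injective F := by
    intro φ ψ h
    have h2 : ∀ a b : (Σ D : {D : Submodule (ZMod 2) U // finrank (ZMod 2) D = d},
        (Fin s → {φ : U →ₗ[(ZMod 2)] V // finrank (ZMod 2) (D.1.map φ) ≤ j})), a = b →
          ∀ i, (a.2 i).1 = (b.2 i).1 := by
      rintro a b rfl i; rfl
    funext i
    exact h2 _ _ h i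
  have hcard := Nat.card_le_card_of_injective F hF
  rw [Nat.card_sigma, Nat.card_fun, natCard_eq, Module.finrank_linearMap,
    Nat.card_eq_fintype_card (α := Fin s), Fintype.card_fin] at hcard
  set n := finrank (ZMod 2) U
  set m := finrank (ZMod 2) V
  have hterm : ∀ D : {D : Submodule (ZMod 2) U // finrank (ZMod 2) D = d},
      Nat.card (Fin s → {φ : U →ₗ[(ZMod 2)] V // finrank (ZMod 2) (D.1.map φ) ≤ j}) *
        2 ^ (s * ((d - j) * (m - j))) ≤ 2 ^ (2 * s) * (2 ^ (n * m)) ^ s := by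
    rintro ⟨D, hD⟩
    have h1 := card_bad D j hj (by rw [hD]; exact hjd)
    rw [hD] at h1
    rw [Nat.card_fun, Nat.card_eq_fintype_card (α := Fin s), Fintype.card_fin]
    calc Nat.card {φ : U →ₗ[(ZMod 2)] V // finrank (ZMod 2) (D.map φ) ≤ j} ^ s *
          2 ^ (s * ((d - j) * (m - j)))
        = (Nat.card {φ : U →ₗ[(ZMod 2)] V // finrank (ZMod 2) (D.map φ) ≤ j} *
            2 ^ ((d - j) * (m - j))) ^ s := by
          rw [mul_pow, ← pow_mul, mul_comm s]
      _ ≤ (4 * 2 ^ (n * m)) ^ s := Nat.pow_le_pow_left h1 s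
      _ = _ := by
          rw [mul_pow]
          congr 1
          rw [pow_mul]
          norm_num
  have h2 : (2 ^ (n * m)) ^ s * 2 ^ (s * ((d - j) * (m - j))) ≤
      Nat.card {D : Submodule (ZMod 2) U // finrank (ZMod 2) D = d} * (2 ^ (2 * s) * (2 ^ (n * m)) ^ s) := by
    calc (2 ^ (n * m)) ^ s * 2 ^ (s * ((d - j) * (m - j)))
        ≤ (∑ D : {D : Submodule (ZMod 2) U // finrank (ZMod 2) D = d},
            Nat.card (Fin s → {φ : U →ₗ[(ZMod 2)] V // finrank (ZMod 2) (D.1.map φ) ≤ j})) *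
            2 ^ (s * ((d - j) * (m - j))) := Nat.mul_le_mul_right _ hcard
      _ ≤ ∑ D : {D : Submodule (ZMod 2) U // finrank (ZMod 2) D = d},
            (2 ^ (2 * s) * (2 ^ (n * m)) ^ s) := by
          rw [Finset.sum_mul]
          exact Finset.sum_le_sum (fun D _ => hterm D)
      _ = _ := by
          rw [Finset.sum_const, smul_eq_mul, Finset.card_univ, ← Nat.card_eq_fintype_card]
  have h3 := card_subspaces (V := U) d
  have h4 : (2 ^ (n * m)) ^ s * 2 ^ (s * ((d - j) * (m - j)) + d * d) ≤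
      (2 ^ (n * m)) ^ s * 2 ^ (n * d + 2 + 2 * s) := by
    calc (2 ^ (n * m)) ^ s * 2 ^ (s * ((d - j) * (m - j)) + d * d)
        = ((2 ^ (n * m)) ^ s * 2 ^ (s * ((d - j) * (m - j)))) * 2 ^ (d * d) := by
          rw [pow_add]; ring
      _ ≤ (Nat.card {D : Submodule (ZMod 2) U // finrank (ZMod 2) D = d} *
            (2 ^ (2 * s) * (2 ^ (n * m)) ^ s)) * 2 ^ (d * d) := Nat.mul_le_mul_right _ h2
      _ = (Nat.card {D : Submodule (ZMod 2) U // finrank (ZMod 2) D = d} * 2 ^ (d * d)) *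
            (2 ^ (2 * s) * (2 ^ (n * m)) ^ s) := by ring
      _ ≤ (4 * 2 ^ (n * d)) * (2 ^ (2 * s) * (2 ^ (n * m)) ^ s) := Nat.mul_le_mul_right _ h3
      _ = _ := by
          rw [pow_add, pow_add]; ring
  have h5 := Nat.le_of_mul_le_mul_left h4 (by positivity)
  have h6 := (Nat.pow_le_pow_iff_right (by norm_num : 1 < 2)).mp h5
  omega

end

end Pool.Agent.Helper22.SR
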