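import Mathlib

set_option autoImplicit false

/-!
# A weighted counting lemma in the style of Rosenfeld

`X` is a finite set, `TT` and `WW` are two families of subsets.  If the local inequality
`∑_{T ∋ v} p^|T| / β^(|T|-1) + ∑_{W ∋ v} (1-p)^|W| / β^(|W|-1) ≤ 1 - β` holds for all `v`, then
there is a subset of `X` containing no member of `TT` and meeting all members of `WW`.
-/

open Finset

namespace Pool.Agent.Helper22.SR

section

variable {X : Type*} [DecidableEq X]

/-- expectation (with total mass one) of `f` over the subsets of `S`, each point being chosen with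
weight `p` and not chosen with weight `1-p` -/
noncomputable def ex (p : ℝ) (S : Finset X) (f : Finset X → ℝ) : ℝ :=
  ∑ A ∈ S.powerset, p ^ A.card * (1 - p) ^ (S \ A).card * f A

theorem ex_empty (p : ℝ) (f : Finset X → ℝ) : ex p ∅ f = f ∅ := by
  simp [ex]

theorem ex_insert (p : ℝ) (S : Finset X) (v : X) (hv : v ∉ S) (f : Finset X → ℝ) :
    ex p (insert v S) f = (1 - p) * ex p S f + p * ex p S (fun A => f (insert v A)) := by
  unfold ex
  rw [Finset.sum_powerset_insert hv, Finset.mul_sum, Finset.mul_sum]
  congr 1
  · apply Finset.sum_congr rfl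
    intro A hA
    rw [Finset.mem_powerset] at hA
    have hvA : v ∉ A := fun h => hv (hA h)
    have h1 : insert v S \ A = insert v (S \ A) := Finset.insert_sdiff_of_notMem _ hvA
    rw [h1, Finset.card_insert_of_notMem (by simp [hv])]
    ring
  · apply Finset.sum_congr rfl
    intro A hA
    rw [Finset.mem_powerset] at hA
    have hvA : v ∉ A := fun h => hv (hA h)
    have h1 : insert v S \ insert v A = S \ A := by
      ext x
      simp only [Finset.mem_sdiff, Finset.mem_insert]
      constructor
      · rintro ⟨h1, h2⟩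
        push Not at h2
        exact ⟨h1.resolve_left h2.1, h2.2⟩
      · rintro ⟨h1, h2⟩
        refine ⟨Or.inr h1, ?_⟩
        rintro (h3 | h3)
        · rw [h3] at h1; exact hv h1
        · exact h2 h3
    rw [h1, Finset.card_insert_of_notMem hvA]
    ring

theorem ex_congr (p : ℝ) (S : Finset X) (f g : Finset X → ℝ) (h : ∀ A ⊆ S, f A = g A) :
    ex p S f = ex p S g := by
  unfold ex
  apply Finset.sum_congr rfl
  intro A hA
  rw [h A (Finset.mem_powerset.mp hA)]

theorem ex_mono {p : ℝ} (hp : 0 ≤ p) (hp1 : p ≤ 1) (S : Finset X) (f g : Finset X → ℝ)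
    (h : ∀ A ⊆ S, f A ≤ g A) : ex p S f ≤ ex p S g := by
  unfold ex
  apply Finset.sum_le_sum
  intro A hA
  apply mul_le_mul_of_nonneg_left (h A (Finset.mem_powerset.mp hA))
  have : 0 ≤ 1 - p := by linarith
  positivity

theorem ex_sub (p : ℝ) (S : Finset X) (f g : Finset X → ℝ) :
    ex p S (fun A => f A - g A) = ex p S f - ex p S g := by
  unfold ex
  rw [← Finset.sum_sub_distrib]
  apply Finset.sum_congr rfl
  intro A _
  ring

theorem ex_sum {ι : Type*} (p : ℝ) (S : Finset X) (I : Finset ι) (f : ι → Finset X → ℝ) :
    ex p S (fun A => ∑ i ∈ I, f i A) = ∑ i ∈ I, ex p S (f i) := by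
  unfold ex
  rw [Finset.sum_comm]
  apply Finset.sum_congr rfl
  intro A _
  rw [Finset.mul_sum]

/-- product rule -/
theorem ex_prod (p : ℝ) (S U : Finset X) (hd : Disjoint S U) (g h : Finset X → ℝ) :
    ex p (S ∪ U) (fun A => g (A ∩ S) * h (A ∩ U)) = ex p S g * ex p U h := by
  induction U using Finset.induction_on generalizing h with
  | empty =>
    rw [Finset.union_empty, ex_empty]
    have : ex p S (fun A => g (A ∩ S) * h (A ∩ ∅)) = ex p S (fun A => g A * h ∅) := by
      apply ex_congr
      intro A hA
      rw [Finset.inter_eq_left.mpr hA, Finset.inter_empty]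
    rw [this]
    unfold ex
    rw [Finset.sum_mul]
    apply Finset.sum_congr rfl
    intro A _
    ring
  | insert u U hu ih =>
    rw [Finset.disjoint_insert_right] at hd
    have huS : u ∉ S ∪ U := by
      rw [Finset.mem_union]; push Not; exact ⟨hd.1, hu⟩
    rw [Finset.union_insert, ex_insert p _ u huS, ex_insert p U u hu]
    have h1 : ex p (S ∪ U) (fun A => g (A ∩ S) * h (A ∩ insert u U)) =
        ex p S g * ex p U h := by
      rw [← ih hd.2]
      apply ex_congr
      intro A hA
      have huA : u ∉ A := fun h => huS (hA h)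
      rw [Finset.inter_insert_of_notMem huA]
    have h2 : ex p (S ∪ U) (fun A => g (insert u A ∩ S) * h (insert u A ∩ insert u U)) =
        ex p S g * ex p U (fun A => h (insert u A)) := by
      rw [← ih hd.2]
      apply ex_congr
      intro A hA
      rw [Finset.insert_inter_of_notMem hd.1, ← Finset.insert_inter_distrib]
    rw [h1, h2]
    ring

theorem ex_one (p : ℝ) (S : Finset X) : ex p S (fun _ => 1) = 1 := by
  induction S using Finset.induction_on with
  | empty => rw [ex_empty]
  | insert u U hu ih => rw [ex_insert p U u hu, ih]; ring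

open Classical in
theorem ex_full (p : ℝ) (S : Finset X) :
    ex p S (fun A => if S ⊆ A then 1 else 0) = p ^ S.card := by
  unfold ex
  rw [Finset.sum_eq_single S]
  · simp
  · intro A hA hne
    rw [Finset.mem_powerset] at hA
    have hn : ¬ S ⊆ A := fun h => hne (Finset.Subset.antisymm hA h)
    simp only [if_neg hn, mul_zero]
  · intro h
    exact absurd (Finset.mem_powerset_self S) h

open Classical in
theorem ex_none (p : ℝ) (S : Finset X) :
    ex p S (fun A => if A = ∅ then 1 else 0) = (1 - p) ^ S.card := by
  unfold ex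
  rw [Finset.sum_eq_single ∅]
  · simp
  · intro A hA hne
    simp only [if_neg hne, mul_zero]
  · intro h
    exact absurd (Finset.empty_mem_powerset S) h

/-- `A` is good inside `S` -/
def Valid (TT WW : Finset (Finset X)) (S A : Finset X) : Prop :=
  (∀ T ∈ TT, ¬ T ⊆ A) ∧ (∀ W ∈ WW, W ⊆ S → (W ∩ A).Nonempty)

theorem Valid.mono {TT WW : Finset (Finset X)} {S A S' : Finset X} (h : Valid TT WW S A)
    (hS : S' ⊆ S) : Valid TT WW S' (A ∩ S') := by
  refine ⟨fun T hT hTA => h.1 T hT (hTA.trans Finset.inter_subset_left), fun W hW hWS => ?_⟩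
  obtain ⟨x, hx⟩ := h.2 W hW (hWS.trans hS)
  rw [Finset.mem_inter] at hx
  exact ⟨x, by rw [Finset.mem_inter, Finset.mem_inter]; exact ⟨hx.1, hx.2, hWS hx.1⟩⟩

open Classical in
/-- indicator of being good -/
noncomputable def val (TT WW : Finset (Finset X)) (S A : Finset X) : ℝ :=
  if Valid TT WW S A then 1 else 0

open Classical in
theorem val_nonneg (TT WW : Finset (Finset X)) (S A : Finset X) : 0 ≤ val TT WW S A := by
  unfold val; split_ifs <;> norm_num

open Classical in
theorem val_le_one (TT WW : Finset (Finset X)) (S A : Finset X) : val TT WW S A ≤ 1 := by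
  unfold val; split_ifs <;> norm_num

/-- weight of the good subsets of `S` -/
noncomputable def zz (TT WW : Finset (Finset X)) (p : ℝ) (S : Finset X) : ℝ :=
  ex p S (val TT WW S)

theorem zz_nonneg (TT WW : Finset (Finset X)) {p : ℝ} (hp : 0 ≤ p) (hp1 : p ≤ 1)
    (S : Finset X) : 0 ≤ zz TT WW p S := by
  unfold zz ex
  apply Finset.sum_nonneg
  intro A _
  have h1 : 0 ≤ 1 - p := by linarith
  have h2 := val_nonneg TT WW S A
  positivity

open Classical in
theorem ex_T (TT WW : Finset (Finset X)) (p : ℝ) (S T : Finset X) (hT : T ⊆ S) :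
    ex p S (fun A => (if T ⊆ A then 1 else 0) * val TT WW (S \ T) (A ∩ (S \ T))) =
      p ^ T.card * zz TT WW p (S \ T) := by
  have h1 := ex_prod p (S \ T) T Finset.sdiff_disjoint (val TT WW (S \ T))
    (fun A => if T ⊆ A then 1 else 0)
  rw [Finset.sdiff_union_of_subset hT, ex_full] at h1
  rw [mul_comm, zz, ← h1]
  apply ex_congr
  intro A hA
  rw [mul_comm]
  congr 2
  rw [eq_iff_iff]
  constructor
  · intro h; exact Finset.subset_inter h (Finset.Subset.refl T)
  · intro h; exact h.trans Finset.inter_subset_left

open Classical in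
theorem ex_W (TT WW : Finset (Finset X)) (p : ℝ) (S W : Finset X) (hW : W ⊆ S) :
    ex p S (fun A => (if A ∩ W = ∅ then 1 else 0) * val TT WW (S \ W) (A ∩ (S \ W))) =
      (1 - p) ^ W.card * zz TT WW p (S \ W) := by
  have h1 := ex_prod p (S \ W) W Finset.sdiff_disjoint (val TT WW (S \ W))
    (fun A => if A = ∅ then 1 else 0)
  rw [Finset.sdiff_union_of_subset hW, ex_none] at h1
  rw [mul_comm, zz, ← h1]
  apply ex_congr
  intro A hA
  rw [mul_comm]

open Classical in
/-- one step -/
theorem zz_step (TT WW : Finset (Finset X)) {p : ℝ} (hp : 0 ≤ p) (hp1 : p ≤ 1)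
    (S : Finset X) (v : X) (hv : v ∉ S) :
    zz TT WW p S - ∑ T ∈ TT.filter (fun T => v ∈ T ∧ T ⊆ insert v S),
        p ^ T.card * zz TT WW p (insert v S \ T)
      - ∑ W ∈ WW.filter (fun W => v ∈ W ∧ W ⊆ insert v S),
        (1 - p) ^ W.card * zz TT WW p (insert v S \ W) ≤ zz TT WW p (insert v S) := by
  have h0 : zz TT WW p S = ex p (insert v S) (fun A => val TT WW S (A ∩ S)) := by
    have h1 := ex_prod p S {v} (by simpa using hv) (val TT WW S) (fun _ => 1)
    rw [ex_one, mul_one] at h1
    rw [zz, ← h1]
    have h2 : S ∪ {v} = insert v S := by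
      ext x; simp
    rw [h2]
    apply ex_congr
    intro A _
    rw [mul_one]
  have hT : ∀ T ∈ TT.filter (fun T => v ∈ T ∧ T ⊆ insert v S),
      p ^ T.card * zz TT WW p (insert v S \ T) = ex p (insert v S)
        (fun A => (if T ⊆ A then 1 else 0) *
          val TT WW (insert v S \ T) (A ∩ (insert v S \ T))) := by
    intro T hT
    rw [Finset.mem_filter] at hT
    rw [ex_T TT WW p _ T hT.2.2]
  have hW : ∀ W ∈ WW.filter (fun W => v ∈ W ∧ W ⊆ insert v S),
      (1 - p) ^ W.card * zz TT WW p (insert v S \ W) = ex p (insert v S)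
        (fun A => (if A ∩ W = ∅ then 1 else 0) *
          val TT WW (insert v S \ W) (A ∩ (insert v S \ W))) := by
    intro W hW
    rw [Finset.mem_filter] at hW
    rw [ex_W TT WW p _ W hW.2.2]
  rw [h0, Finset.sum_congr rfl hT, Finset.sum_congr rfl hW, ← ex_sum, ← ex_sum, ← ex_sub,
    ← ex_sub, zz]
  apply ex_mono hp hp1
  intro A hA
  have hTn : 0 ≤ ∑ T ∈ TT.filter (fun T => v ∈ T ∧ T ⊆ insert v S),
      (if T ⊆ A then (1 : ℝ) else 0) * val TT WW (insert v S \ T) (A ∩ (insert v S \ T)) := by
    apply Finset.sum_nonneg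
    intro T _
    apply mul_nonneg
    · split_ifs <;> norm_num
    · exact val_nonneg _ _ _ _
  have hWn : 0 ≤ ∑ W ∈ WW.filter (fun W => v ∈ W ∧ W ⊆ insert v S),
      (if A ∩ W = ∅ then (1 : ℝ) else 0) *
        val TT WW (insert v S \ W) (A ∩ (insert v S \ W)) := by
    apply Finset.sum_nonneg
    intro W _
    apply mul_nonneg
    · split_ifs <;> norm_num
    · exact val_nonneg _ _ _ _
  by_cases hS : Valid TT WW S (A ∩ S)
  · by_cases hI : Valid TT WW (insert v S) A
    · have h3 : val TT WW (insert v S) A = 1 := by rw [val, if_pos hI]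
      have h4 := val_le_one TT WW S (A ∩ S)
      rw [h3]
      linarith
    · have h3 : val TT WW (insert v S) A = 0 := by rw [val, if_neg hI]
      have h4 : val TT WW S (A ∩ S) = 1 := by rw [val, if_pos hS]
      rw [h3, h4]
      unfold Valid at hI
      rw [not_and_or] at hI
      rcases hI with hI | hI
      · push Not at hI
        obtain ⟨T, hTT, hTA⟩ := hI
        have hvT : v ∈ T := by
          by_contra hvT
          apply hS.1 T hTT
          intro x hx
          rw [Finset.mem_inter]
          refine ⟨hTA hx, ?_⟩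
          have := hA (hTA hx)
          rw [Finset.mem_insert] at this
          rcases this with h5 | h5
          · rw [h5] at hx; exact absurd hx hvT
          · exact h5
        have hmem : T ∈ TT.filter (fun T => v ∈ T ∧ T ⊆ insert v S) := by
          rw [Finset.mem_filter]
          exact ⟨hTT, hvT, hTA.trans hA⟩
        have hsub : insert v S \ T ⊆ S := by
          intro x hx
          rw [Finset.mem_sdiff, Finset.mem_insert] at hx
          rcases hx.1 with h5 | h5
          · rw [h5] at hx; exact absurd hvT hx.2
          · exact h5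
        have hval : val TT WW (insert v S \ T) (A ∩ (insert v S \ T)) = 1 := by
          have h6 := hS.mono hsub
          have h7 : A ∩ S ∩ (insert v S \ T) = A ∩ (insert v S \ T) := by
            rw [Finset.inter_assoc, Finset.inter_eq_right.mpr hsub]
          rw [h7] at h6
          rw [val, if_pos h6]
        have h8 := Finset.single_le_sum (f := fun T => (if T ⊆ A then (1 : ℝ) else 0) *
          val TT WW (insert v S \ T) (A ∩ (insert v S \ T))) (fun T _ => by
            apply mul_nonneg
            · split_ifs <;> norm_num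
            · exact val_nonneg _ _ _ _) hmem
        simp only [hval, if_pos hTA, mul_one] at h8
        linarith
      · push Not at hI
        obtain ⟨W, hWW, hWS, hWA⟩ := hI
        have hWA' : A ∩ W = ∅ := by
          rw [Finset.inter_comm]
          exact hWA
        have hvW : v ∈ W := by
          by_contra hvW
          have hWS' : W ⊆ S := by
            intro x hx
            have := hWS hx
            rw [Finset.mem_insert] at this
            rcases this with h5 | h5
            · rw [h5] at hx; exact absurd hx hvW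
            · exact h5
          obtain ⟨x, hx⟩ := hS.2 W hWW hWS'
          rw [Finset.mem_inter, Finset.mem_inter] at hx
          have : x ∈ A ∩ W := Finset.mem_inter.mpr ⟨hx.2.1, hx.1⟩
          rw [hWA'] at this
          exact absurd this (Finset.notMem_empty x)
        have hmem : W ∈ WW.filter (fun W => v ∈ W ∧ W ⊆ insert v S) := by
          rw [Finset.mem_filter]
          exact ⟨hWW, hvW, hWS⟩
        have hsub : insert v S \ W ⊆ S := by
          intro x hx
          rw [Finset.mem_sdiff, Finset.mem_insert] at hx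
          rcases hx.1 with h5 | h5
          · rw [h5] at hx; exact absurd hvW hx.2
          · exact h5
        have hval : val TT WW (insert v S \ W) (A ∩ (insert v S \ W)) = 1 := by
          have h6 := hS.mono hsub
          have h7 : A ∩ S ∩ (insert v S \ W) = A ∩ (insert v S \ W) := by
            rw [Finset.inter_assoc, Finset.inter_eq_right.mpr hsub]
          rw [h7] at h6
          rw [val, if_pos h6]
        have h8 := Finset.single_le_sum (f := fun W => (if A ∩ W = ∅ then (1 : ℝ) else 0) *
          val TT WW (insert v S \ W) (A ∩ (insert v S \ W))) (fun W _ => by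
            apply mul_nonneg
            · split_ifs <;> norm_num
            · exact val_nonneg _ _ _ _) hmem
        simp only [hval, if_pos hWA', mul_one] at h8
        linarith
  · have h4 : val TT WW S (A ∩ S) = 0 := by rw [val, if_neg hS]
    have h5 := val_nonneg TT WW (insert v S) A
    rw [h4]
    linarith

theorem zz_chain (TT WW : Finset (Finset X)) (p β : ℝ) (hβ : 0 ≤ β) (S : Finset X)
    (U : Finset X) (hU : Disjoint U S)
    (hh : ∀ S' : Finset X, ∀ v, v ∉ S' → insert v S' ⊆ S ∪ U →
      β * zz TT WW p S' ≤ zz TT WW p (insert v S')) :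
    β ^ U.card * zz TT WW p S ≤ zz TT WW p (S ∪ U) := by
  induction U using Finset.induction_on with
  | empty => simp
  | insert u U hu ih =>
    rw [Finset.disjoint_insert_left] at hU
    have h1 := ih hU.2 (fun S' v hv hS' => hh S' v hv (hS'.trans (by
      intro x hx
      rw [Finset.mem_union] at hx ⊢
      rcases hx with h2 | h2
      · exact Or.inl h2
      · exact Or.inr (Finset.mem_insert_of_mem h2))))
    have h2 := hh (S ∪ U) u (by
      rw [Finset.mem_union]; push Not; exact ⟨hU.1, hu⟩) (by
      intro x hx
      rw [Finset.mem_insert, Finset.mem_union] at hx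
      rw [Finset.mem_union, Finset.mem_insert]
      tauto)
    rw [Finset.union_insert, Finset.card_insert_of_notMem hu, pow_succ]
    calc β ^ U.card * β * zz TT WW p S = β * (β ^ U.card * zz TT WW p S) := by ring
      _ ≤ β * zz TT WW p (S ∪ U) := mul_le_mul_of_nonneg_left h1 hβ
      _ ≤ _ := h2

open Classical in
/-- the growth estimate -/
theorem zz_growth (TT WW : Finset (Finset X)) {p β : ℝ} (hp : 0 ≤ p) (hp1 : p ≤ 1)
    (hβ : 0 < β)
    (hloc : ∀ v : X, ∑ T ∈ TT.filter (fun T => v ∈ T), p ^ T.card / β ^ (T.card - 1) +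
      ∑ W ∈ WW.filter (fun W => v ∈ W), (1 - p) ^ W.card / β ^ (W.card - 1) ≤ 1 - β) :
    ∀ (n : ℕ) (S : Finset X) (v : X), S.card ≤ n → v ∉ S →
      β * zz TT WW p S ≤ zz TT WW p (insert v S) := by
  intro n
  induction n with
  | zero =>
    intro S v hS hv
    have hS0 : S = ∅ := Finset.card_eq_zero.mp (by omega)
    subst hS0
    have hstep := zz_step TT WW hp hp1 ∅ v hv
    have hq : 0 ≤ 1 - p := by linarith
    -- the only possible members are `{v}`
    have hz : ∀ U : Finset X, v ∈ U → insert v (∅ : Finset X) \ U = ∅ := by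
      intro U hU
      ext x
      simp only [Finset.mem_sdiff, Finset.mem_insert, Finset.notMem_empty, or_false, iff_false,
        not_and, not_not]
      rintro rfl
      exact hU
    have hcard : ∀ U : Finset X, v ∈ U → U ⊆ insert v (∅ : Finset X) → U.card = 1 := by
      intro U hU hU'
      have : U = {v} := by
        apply Finset.Subset.antisymm
        · simpa using hU'
        · simpa using hU
      rw [this, Finset.card_singleton]
    have hT : ∑ T ∈ TT.filter (fun T => v ∈ T ∧ T ⊆ insert v (∅ : Finset X)),
        p ^ T.card * zz TT WW p (insert v ∅ \ T) ≤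
        (∑ T ∈ TT.filter (fun T => v ∈ T), p ^ T.card / β ^ (T.card - 1)) * zz TT WW p ∅ := by
      rw [Finset.sum_mul]
      apply (Finset.sum_le_sum_of_subset_of_nonneg (s := TT.filter (fun T => v ∈ T ∧
        T ⊆ insert v (∅ : Finset X))) (t := TT.filter (fun T => v ∈ T)) (f := fun T =>
          p ^ T.card / β ^ (T.card - 1) * zz TT WW p ∅) ?_ ?_).trans' ?_
      · intro T hT
        rw [Finset.mem_filter] at hT ⊢
        exact ⟨hT.1, hT.2.1⟩
      · intro T _ _
        have := zz_nonneg TT WW hp hp1 ∅
        positivity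
      · apply Finset.sum_le_sum
        intro T hT
        rw [Finset.mem_filter] at hT
        rw [hz T hT.2.1, hcard T hT.2.1 hT.2.2]
        simp
    have hW : ∑ W ∈ WW.filter (fun W => v ∈ W ∧ W ⊆ insert v (∅ : Finset X)),
        (1 - p) ^ W.card * zz TT WW p (insert v ∅ \ W) ≤
        (∑ W ∈ WW.filter (fun W => v ∈ W), (1 - p) ^ W.card / β ^ (W.card - 1)) *
          zz TT WW p ∅ := by
      rw [Finset.sum_mul]
      apply (Finset.sum_le_sum_of_subset_of_nonneg (s := WW.filter (fun W => v ∈ W ∧
        W ⊆ insert v (∅ : Finset X))) (t := WW.filter (fun W => v ∈ W)) (f := fun W =>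
          (1 - p) ^ W.card / β ^ (W.card - 1) * zz TT WW p ∅) ?_ ?_).trans' ?_
      · intro W hW
        rw [Finset.mem_filter] at hW ⊢
        exact ⟨hW.1, hW.2.1⟩
      · intro W _ _
        have := zz_nonneg TT WW hp hp1 ∅
        positivity
      · apply Finset.sum_le_sum
        intro W hW
        rw [Finset.mem_filter] at hW
        rw [hz W hW.2.1, hcard W hW.2.1 hW.2.2]
        simp
    have hzn := zz_nonneg TT WW hp hp1 (∅ : Finset X)
    have h9 := mul_le_mul_of_nonneg_right (hloc v) hzn
    nlinarith [h9, hT, hW, hstep]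
  | succ n ih =>
    intro S v hS hv
    have hstep := zz_step TT WW hp hp1 S v hv
    have hq : 0 ≤ 1 - p := by linarith
    have hzn := zz_nonneg TT WW hp hp1 S
    have hchain : ∀ U : Finset X, v ∈ U → U ⊆ insert v S →
        zz TT WW p (insert v S \ U) ≤ zz TT WW p S / β ^ (U.card - 1) := by
      intro U hvU hUS
      have h1 : insert v S \ U = S \ U := by
        ext x
        simp only [Finset.mem_sdiff, Finset.mem_insert]
        constructor
        · rintro ⟨h2 | h2, h3⟩
          · rw [h2] at h3; exact absurd hvU h3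
          · exact ⟨h2, h3⟩
        · rintro ⟨h2, h3⟩; exact ⟨Or.inr h2, h3⟩
      have h2 : S = (S \ U) ∪ (U.erase v) := by
        ext x
        simp only [Finset.mem_union, Finset.mem_sdiff, Finset.mem_erase]
        constructor
        · intro hx
          by_cases hxU : x ∈ U
          · right
            refine ⟨?_, hxU⟩
            rintro rfl
            exact hv hx
          · left; exact ⟨hx, hxU⟩
        · rintro (h3 | h3)
          · exact h3.1
          · have := hUS h3.2
            rw [Finset.mem_insert] at this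
            exact this.resolve_left h3.1
      have h3 : Disjoint (U.erase v) (S \ U) := by
        rw [Finset.disjoint_left]
        intro x hx hx'
        rw [Finset.mem_erase] at hx
        rw [Finset.mem_sdiff] at hx'
        exact hx'.2 hx.2
      have hall : ∀ S' : Finset X, ∀ w, w ∉ S' → insert w S' ⊆ (S \ U) ∪ (U.erase v) →
          β * zz TT WW p S' ≤ zz TT WW p (insert w S') := by
        intro S' w hw hS'
        apply ih S' w _ hw
        rw [← h2] at hS'
        have := Finset.card_le_card hS'
        rw [Finset.card_insert_of_notMem hw] at this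
        omega
      have h4 := zz_chain TT WW p β hβ.le (S \ U) (U.erase v) h3 hall
      rw [← h2, Finset.card_erase_of_mem hvU] at h4
      rw [h1, le_div_iff₀ (by positivity)]
      linarith [h4]
    have hT : ∑ T ∈ TT.filter (fun T => v ∈ T ∧ T ⊆ insert v S),
        p ^ T.card * zz TT WW p (insert v S \ T) ≤
        (∑ T ∈ TT.filter (fun T => v ∈ T), p ^ T.card / β ^ (T.card - 1)) * zz TT WW p S := by
      rw [Finset.sum_mul]
      apply (Finset.sum_le_sum_of_subset_of_nonneg (s := TT.filter (fun T => v ∈ T ∧
        T ⊆ insert v S)) (t := TT.filter (fun T => v ∈ T)) (f := fun T =>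
          p ^ T.card / β ^ (T.card - 1) * zz TT WW p S) ?_ ?_).trans' ?_
      · intro T hT
        rw [Finset.mem_filter] at hT ⊢
        exact ⟨hT.1, hT.2.1⟩
      · intro T _ _
        positivity
      · apply Finset.sum_le_sum
        intro T hT
        rw [Finset.mem_filter] at hT
        rw [div_mul_eq_mul_div, mul_div_assoc]
        exact mul_le_mul_of_nonneg_left (hchain T hT.2.1 hT.2.2) (by positivity)
    have hW : ∑ W ∈ WW.filter (fun W => v ∈ W ∧ W ⊆ insert v S),
        (1 - p) ^ W.card * zz TT WW p (insert v S \ W) ≤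
        (∑ W ∈ WW.filter (fun W => v ∈ W), (1 - p) ^ W.card / β ^ (W.card - 1)) *
          zz TT WW p S := by
      rw [Finset.sum_mul]
      apply (Finset.sum_le_sum_of_subset_of_nonneg (s := WW.filter (fun W => v ∈ W ∧
        W ⊆ insert v S)) (t := WW.filter (fun W => v ∈ W)) (f := fun W =>
          (1 - p) ^ W.card / β ^ (W.card - 1) * zz TT WW p S) ?_ ?_).trans' ?_
      · intro W hW
        rw [Finset.mem_filter] at hW ⊢
        exact ⟨hW.1, hW.2.1⟩
      · intro W _ _
        positivity
      · apply Finset.sum_le_sum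
        intro W hW
        rw [Finset.mem_filter] at hW
        rw [div_mul_eq_mul_div, mul_div_assoc]
        exact mul_le_mul_of_nonneg_left (hchain W hW.2.1 hW.2.2) (by positivity)
    have h9 := mul_le_mul_of_nonneg_right (hloc v) hzn
    nlinarith [h9, hT, hW, hstep]

open Classical in
/-- **Main lemma** -/
theorem exists_good [Fintype X] (TT WW : Finset (Finset X)) {p β : ℝ} (hp : 0 ≤ p) (hp1 : p ≤ 1)
    (hβ : 0 < β) (hT0 : ∅ ∉ TT) (hW0 : ∅ ∉ WW)
    (hloc : ∀ v : X, ∑ T ∈ TT.filter (fun T => v ∈ T), p ^ T.card / β ^ (T.card - 1) +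
      ∑ W ∈ WW.filter (fun W => v ∈ W), (1 - p) ^ W.card / β ^ (W.card - 1) ≤ 1 - β) :
    ∃ A : Finset X, (∀ T ∈ TT, ¬ T ⊆ A) ∧ (∀ W ∈ WW, (W ∩ A).Nonempty) := by
  have hg := zz_growth TT WW hp hp1 hβ hloc
  have hall : ∀ S' : Finset X, ∀ w, w ∉ S' → β * zz TT WW p S' ≤ zz TT WW p (insert w S') :=
    fun S' w hw => hg S'.card S' w le_rfl hw
  have h1 := zz_chain TT WW p β hβ.le ∅ Finset.univ
    (by simp) (fun S' w hw _ => hall S' w hw)
  have h2 : zz TT WW p ∅ = 1 := by
    rw [zz, ex_empty, val, if_pos]
    refine ⟨fun T hT hTs => ?_, fun W hW hWs => ?_⟩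
    · rw [Finset.subset_empty] at hTs
      rw [hTs] at hT; exact hT0 hT
    · rw [Finset.subset_empty] at hWs
      rw [hWs] at hW; exact absurd hW hW0
  rw [h2, mul_one, Finset.empty_union] at h1
  have h3 : 0 < zz TT WW p Finset.univ := lt_of_lt_of_le (by positivity) h1
  by_contra hcon
  push Not at hcon
  have h4 : zz TT WW p Finset.univ = 0 := by
    unfold zz ex
    apply Finset.sum_eq_zero
    intro A _
    have : val TT WW Finset.univ A = 0 := by
      rw [val, if_neg]
      rintro ⟨h5, h6⟩
      obtain ⟨W, hW, hW'⟩ := hcon A h5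
      have := h6 W hW (Finset.subset_univ W)
      rw [hW'] at this
      exact Finset.not_nonempty_empty this
    rw [this, mul_zero]
  linarith

end

end Pool.Agent.Helper22.SR
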