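import Pool.Agent.Helper22.SR.Lower

set_option autoImplicit false

/-!
# Lower bounds that are uniform in the number of colours
-/

open Module Filter

namespace Pool.Agent.Helper22.SR

theorem eventually_two_pow (δ : ℝ) (hδ : 0 < δ) :
    ∀ᶠ d : ℕ in atTop, d * d + d + 6 ≤ 2 ^ (⌊δ * d⌋₊) := by
  have hr : (1 : ℝ) < (2 : ℝ) ^ δ := Real.one_lt_rpow (by norm_num) hδ
  have h1 := isLittleO_pow_const_const_pow_of_one_lt (R := ℝ) 2 hr
  have h2 := h1.bound (show (0 : ℝ) < 1 / 16 by norm_num)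
  filter_upwards [h2, eventually_ge_atTop 1] with d hd hd1
  rw [Real.norm_eq_abs, Real.norm_eq_abs, abs_of_nonneg (by positivity),
    abs_of_nonneg (by positivity)] at hd
  have hd1' : (1 : ℝ) ≤ d := by exact_mod_cast hd1
  have h3 : δ * d - 1 ≤ (⌊δ * d⌋₊ : ℝ) := by
    have := Nat.lt_floor_add_one (δ * (d : ℝ))
    linarith
  have h4 : ((2 : ℝ) ^ δ) ^ d = 2 ^ (δ * d) := by
    rw [← Real.rpow_natCast, ← Real.rpow_mul (by norm_num)]
  have h5 : (2 : ℝ) ^ (δ * d) = 2 * 2 ^ (δ * d - 1) := by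
    rw [Real.rpow_sub (by norm_num), Real.rpow_one]; ring
  have h6 : (2 : ℝ) ^ (δ * d - 1) ≤ 2 ^ ((⌊δ * d⌋₊ : ℕ) : ℝ) :=
    Real.rpow_le_rpow_of_exponent_le (by norm_num) h3
  rw [Real.rpow_natCast] at h6
  rw [h4, h5] at hd
  have h7 : ((d * d + d + 6 : ℕ) : ℝ) ≤ ((2 ^ (⌊δ * d⌋₊) : ℕ) : ℝ) := by
    push_cast
    nlinarith
  exact_mod_cast h7

/-- **Theorem** (uniform in the number of colours) -/
theorem uniform_lower (c : ℝ) (hc0 : 0 ≤ c) (hc : c < 1 / 4) :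
    ∃ d0 : ℕ, ∀ d ≥ d0, ∀ s : ℕ, 1 ≤ s → (1 + c * s) * d ≤ ramseyF2 (s + 1) d := by
  set c' : ℝ := (c + 1 / 4) / 2 with hc'
  have hc'0 : 0 < c' := by rw [hc']; linarith
  have hcc' : c < c' := by rw [hc']; linarith
  have hc'1 : c' < 1 / 4 := by rw [hc']; linarith
  set σ : ℝ := Real.sqrt c' with hσ
  have hσ0 : 0 ≤ σ := Real.sqrt_nonneg _
  have hσ2 : σ ^ 2 = c' := Real.sq_sqrt hc'0.le
  have hσ1 : σ < 1 / 2 := by
    rw [hσ, Real.sqrt_lt' (by norm_num)]
    norm_num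
    linarith
  set δ : ℝ := (1 / 2 - σ) / 2 with hδ
  have hδ0 : 0 < δ := by rw [hδ]; linarith
  have e1 : ∀ᶠ d : ℕ in atTop, 3 ≤ δ * d := by
    have := (tendsto_natCast_atTop_atTop (R := ℝ)).const_mul_atTop hδ0
    exact this.eventually_ge_atTop 3
  have e2 : ∀ᶠ d : ℕ in atTop, 4 < (c' - c) * d := by
    have := (tendsto_natCast_atTop_atTop (R := ℝ)).const_mul_atTop (show 0 < c' - c by linarith)
    exact this.eventually_gt_atTop 4
  obtain ⟨d0, hd0⟩ := Filter.eventually_atTop.mp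
    ((e1.and e2).and ((eventually_two_pow δ hδ0).and (eventually_ge_atTop 2)))
  refine ⟨d0, fun d hd s hs => ?_⟩
  obtain ⟨⟨h1, h2⟩, h3, h4⟩ := hd0 d hd
  have hdR : (2 : ℝ) ≤ d := by exact_mod_cast h4
  have hsR : (1 : ℝ) ≤ s := by exact_mod_cast hs
  set L := ⌊δ * (d : ℝ)⌋₊ with hL
  have hLr : (L : ℝ) ≤ δ * d := Nat.floor_le (by positivity)
  set q := d / 2 with hq
  have hq1 : 2 * q ≤ d := by omega
  have hq2 : d ≤ 2 * q + 1 := by omega
  have hq1R : 2 * (q : ℝ) ≤ d := by exact_mod_cast hq1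
  have hq2R : (d : ℝ) ≤ 2 * q + 1 := by exact_mod_cast hq2
  have hσδ : σ = 1 / 2 - 2 * δ := by rw [hδ]; ring
  -- real lower bounds
  have hu1 : σ * d ≤ (d : ℝ) - q - 2 - L := by
    rw [hσδ]; nlinarith
  have hu2 : σ * d ≤ (q : ℝ) - 2 - L := by
    rw [hσδ]; nlinarith
  have hσd : 0 ≤ σ * d := by positivity
  have hqL : q ≥ 2 + L := by
    have : ((2 + L : ℕ) : ℝ) ≤ q := by push_cast; linarith
    exact_mod_cast this
  have hjd : q + 2 + L ≤ d := by omega
  have hjm : q + 2 + L ≤ 2 * q := by omega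
  have hdqL : q + 2 + L < d := by
    -- from `σ d > 0`
    have h5 : 0 < σ := by
      rw [hσ]; exact Real.sqrt_pos.mpr hc'0
    have h6 : 0 < σ * d := by positivity
    have h7 : ((q + 2 + L : ℕ) : ℝ) < d := by push_cast; linarith
    exact_mod_cast h7
  have hlocal : Avoid 1 (q + 2 + L + 1) (2 * q) := by
    apply avoid_local
    have h5 : 2 * q * (q + 2 + L + 1) + q + 6 ≤ d * d + d + 6 := by
      have h6 : 2 * q * (q + 2 + L + 1) ≤ d * d := Nat.mul_le_mul hq1 hdqL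
      omega
    calc 2 ^ (q + 3) * (2 * q * (q + 2 + L + 1) + q + 6) ≤ 2 ^ (q + 3) * 2 ^ L :=
          Nat.mul_le_mul_left _ (h5.trans h3)
      _ = 2 ^ (q + 2 + L + 1) := by rw [← pow_add]; congr 1; ring
  set n := ⌊(1 + c * s) * (d : ℝ)⌋₊ with hn
  have hnr : (n : ℝ) ≤ (1 + c * s) * d := Nat.floor_le (by positivity)
  have hav : Avoid s d n := by
    apply hlocal.pullback s d n hjm hjd
    have h8 : ((n * d + 2 + 2 * s : ℕ) : ℝ) <
        ((s * ((d - (q + 2 + L)) * (2 * q - (q + 2 + L))) + d * d : ℕ) : ℝ) := by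
      push_cast [Nat.cast_sub hjd, Nat.cast_sub hjm]
      have h9 : c' * (d : ℝ) ^ 2 ≤ ((d : ℝ) - (q + 2 + L)) * (2 * q - (q + 2 + L)) := by
        have h10 : (σ * d) * (σ * d) ≤ ((d : ℝ) - (q + 2 + L)) * (2 * q - (q + 2 + L)) := by
          apply mul_le_mul _ _ hσd _
          · linarith
          · linarith
          · linarith
        calc c' * (d : ℝ) ^ 2 = (σ * d) * (σ * d) := by rw [← hσ2]; ring
          _ ≤ _ := h10
      have h11 : (n : ℝ) * d ≤ (1 + c * s) * d * d := mul_le_mul_of_nonneg_right hnr (by positivity)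
      have h12 : (s : ℝ) * (c' * (d : ℝ) ^ 2) ≤
          s * (((d : ℝ) - (q + 2 + L)) * (2 * q - (q + 2 + L))) :=
        mul_le_mul_of_nonneg_left h9 (by positivity)
      have h13 : 4 * (s : ℝ) < (c' - c) * d * d * s := by
        have : 4 < (c' - c) * d * d := by nlinarith
        nlinarith
      nlinarith
    exact_mod_cast h8
  have h14 := lt_ramsey hav
  have h15 : ((n + 1 : ℕ) : ℝ) ≤ ramseyF2 (s + 1) d := by exact_mod_cast h14
  have h16 := Nat.lt_floor_add_one ((1 + c * s) * (d : ℝ))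
  push_cast at h15
  linarith

/-- for fixed `d` the difference is large for infinitely many `r` -/
theorem frequently_difference (c : ℝ) (hc0 : 0 ≤ c) (hc : c < 1 / 4) :
    ∃ d0 : ℕ, ∀ d ≥ d0, ∃ᶠ r : ℕ in atTop,
      c * d ≤ (ramseyF2 (r + 1) d : ℝ) - ramseyF2 r d := by
  obtain ⟨d0, hd0⟩ := uniform_lower ((c + 1 / 4) / 2) (by linarith) (by linarith)
  refine ⟨max d0 1, fun d hd => ?_⟩
  have hd1 : 1 ≤ d := le_trans (le_max_right _ _) hd
  have hdd0 : d0 ≤ d := le_trans (le_max_left _ _) hd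
  have hd1R : (1 : ℝ) ≤ d := by exact_mod_cast hd1
  rw [Filter.Frequently]
  intro hev
  obtain ⟨r1, hr1⟩ := Filter.eventually_atTop.mp hev
  have hup : ∀ k : ℕ, (ramseyF2 (r1 + k) d : ℝ) ≤ ramseyF2 r1 d + k * (c * d) := by
    intro k
    induction k with
    | zero => simp
    | succ k ih =>
      have h1 := hr1 (r1 + k) (Nat.le_add_right _ _)
      push Not at h1
      rw [← add_assoc]
      push_cast
      linarith
  obtain ⟨k, hk⟩ := exists_nat_gt ((ramseyF2 r1 d : ℝ) / (((1 / 4 - c) / 2) * d))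
  have hpos : 0 < ((1 / 4 - c) / 2) * (d : ℝ) := by
    have : 0 < (1 / 4 - c) / 2 := by linarith
    positivity
  rw [div_lt_iff₀ hpos] at hk
  have h2 := hup (k + 1)
  have h3 := hd0 d hdd0 (r1 + k) (by
    by_contra h
    have hk0 : k = 0 := by omega
    have hr0 : r1 = 0 := by omega
    rw [hk0] at hk
    have : (0 : ℝ) ≤ ramseyF2 r1 d := by positivity
    push_cast at hk
    linarith)
  rw [← add_assoc] at h2
  push_cast at h2 h3
  have hr1R : (0 : ℝ) ≤ r1 := by positivity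
  have hkR : (0 : ℝ) ≤ k := by positivity
  have h4 : (c + 1 / 4) / 2 * ((r1 : ℝ) + k) * d ≥ (c + 1 / 4) / 2 * k * d := by
    have : 0 ≤ (c + 1 / 4) / 2 * (r1 : ℝ) * d := by positivity
    nlinarith
  nlinarith

end Pool.Agent.Helper22.SR
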