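import Pool.Agent.Helper22.SR.Lower
import Pool.Agent.Helper22.KM.K12

set_option autoImplicit false

/-!
# Polynomial upper bounds and unbounded differences
-/

open Module Filter

namespace Pool.Agent.Helper22.SR

open Pool.Agent.Helper22.KM

theorem Avoid.split {s d n : ℕ} (D : ℕ) (h : Avoid (s + 1) d n) : Avoid s D n ∨ Avoid 1 d D := by
  obtain ⟨A, hA, hW⟩ := h
  by_cases hc : ∀ W : Submodule (ZMod 2) (Fin n → ZMod 2), finrank (ZMod 2) W = D →
      ∃ i : Fin s, ∃ w ∈ W, w ∈ A i.castSucc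
  · left
    exact ⟨fun i => A i.castSucc, fun i => hA _, hc⟩
  · right
    push Not at hc
    obtain ⟨W, hWD, hWA⟩ := hc
    have key : AvoidOn (Fin 1) W d := by
      refine ⟨fun _ => {w : W | (w : Fin n → ZMod 2) ∈ A (Fin.last s)}, ?_, ?_⟩
      · intro _ x hx y hy hxy
        exact hA _ _ hx _ hy hxy
      · intro Y hY
        obtain ⟨i, w, hw, hwA⟩ := hW (Y.map W.subtype) (by
          rw [Submodule.finrank_map_subtype_eq, hY])
        obtain ⟨v, hv, rfl⟩ := hw
        refine ⟨0, v, hv, ?_⟩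
        show (v : Fin n → ZMod 2) ∈ A (Fin.last s)
        rcases Fin.eq_castSucc_or_eq_last i with ⟨j, rfl⟩ | rfl
        · exact absurd hwA (hWA j _ v.2)
        · exact hwA
    exact key.toAvoid 1 D (Fintype.card_fin 1) (by rw [hWD])

/-- polynomial upper bound for any number of colours -/
theorem not_avoid_poly (s : ℕ) : ∃ C a : ℕ, ∀ d, 1 ≤ d → ∀ n, C * d ^ a ≤ n → ¬ Avoid s d n := by
  induction s with
  | zero =>
    refine ⟨1, 1, fun d _ n hn h => ?_⟩
    rw [one_mul, pow_one] at hn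
    obtain ⟨A, _, hW⟩ := h
    obtain ⟨W, _, hWd⟩ := exists_le_finrank (⊤ : Submodule (ZMod 2) (Fin n → ZMod 2)) d
      (by rw [finrank_top, Module.finrank_fin_fun]; exact hn)
    obtain ⟨i, _⟩ := hW W hWd
    exact i.elim0
  | succ s ih =>
    obtain ⟨C, a, hCa⟩ := ih
    refine ⟨C * 1000000000000000000 ^ a, 9 * a, fun d hd n hn h => ?_⟩
    rcases h.split (1000000000000000000 * d ^ 9) with h1 | h1
    · refine hCa (1000000000000000000 * d ^ 9) ?_ n ?_ h1
      · have : 1 ≤ d ^ 9 := Nat.one_le_pow _ _ hd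
        omega
      · calc C * (1000000000000000000 * d ^ 9) ^ a
            = C * 1000000000000000000 ^ a * d ^ (9 * a) := by
              rw [mul_pow, ← pow_mul]; ring
          _ ≤ n := hn
    · exact not_avoid_one d _ hd le_rfl h1

theorem ramsey_le_poly (s : ℕ) : ∃ C a : ℕ, ∀ d, 1 ≤ d → ramseyF2 (s + 1) d ≤ C * d ^ a := by
  obtain ⟨C, a, h⟩ := not_avoid_poly s
  refine ⟨C, a, fun d hd => ?_⟩
  by_contra hcon
  push Not at hcon
  exact h d hd _ le_rfl (avoid_of_lt hcon)

theorem ramsey_one_le (d : ℕ) (hd : 1 ≤ d) :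
    ramseyF2 2 d ≤ 1000000000000000000 * d ^ 9 := by
  by_contra hcon
  push Not at hcon
  exact not_avoid_one d _ hd le_rfl (avoid_of_lt hcon)

/-- the pullback inequality between Ramsey numbers -/
theorem pull_ineq (s t k l n : ℕ) (hk : 2 ≤ k)
    (hG : k + 2 ≤ ramseyF2 (s + 1) k)
    (hn : n * (k + l) ≤ t * (l * (ramseyF2 (s + 1) k - k))) :
    n < ramseyF2 (s * t + 1) (k + l) := by
  apply lt_ramsey
  obtain ⟨j, rfl⟩ : ∃ j, k = j + 1 := ⟨k - 1, by omega⟩
  have hav : Avoid s (j + 1) (ramseyF2 (s + 1) (j + 1) - 1) := avoid_of_lt (by omega)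
  obtain ⟨g, hg⟩ : ∃ g, ramseyF2 (s + 1) (j + 1) = j + 1 + g := ⟨_, (Nat.add_sub_of_le (by
    omega)).symm⟩
  rw [hg] at hav hn hG
  have e1 : j + 1 + g - 1 = j + g := by omega
  have e2 : j + 1 + g - (j + 1) = g := by omega
  rw [e1] at hav
  rw [e2] at hn
  apply hav.pullback_many t (j + 1 + l) n (by omega) (by omega)
  have e3 : j + 1 + l - j = l + 1 := by omega
  have e4 : j + g - j = g := by omega
  rw [e3, e4]
  have hg2 : 2 ≤ g := by omega
  have h1 : t * 2 ≤ t * g := Nat.mul_le_mul_left t hg2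
  have h2 : 2 * 2 ≤ (j + 1 + l) * (j + 1 + l) := Nat.mul_le_mul (by omega) (by omega)
  have h3 : t * ((l + 1) * g) = t * (l * g) + t * g := by ring
  omega

/-- contradiction scheme: too fast growth along a geometric sequence -/
theorem growth_contradiction (G : ℕ → ℝ) (C : ℝ) (a : ℕ) (k0 : ℕ) (hk0 : 1 ≤ k0)
    (hub : ∀ d : ℕ, 1 ≤ d → G d ≤ C * (d : ℝ) ^ a) (hpos : 1 ≤ G k0)
    (hstep : ∀ k ≥ k0, (2 : ℝ) ^ (a + 1) * G k ≤ G (2 * k)) : False := by
  have h1 : ∀ i : ℕ, ((2 : ℝ) ^ (a + 1)) ^ i ≤ G (2 ^ i * k0) := by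
    intro i
    induction i with
    | zero => simpa using hpos
    | succ i ih =>
      have h2 : k0 ≤ 2 ^ i * k0 := Nat.le_mul_of_pos_left _ (by positivity)
      have h3 := hstep _ h2
      have h4 : 2 ^ (i + 1) * k0 = 2 * (2 ^ i * k0) := by ring
      rw [h4, pow_succ, mul_comm]
      exact (mul_le_mul_of_nonneg_left ih (by positivity)).trans h3
  have hk0R : (1 : ℝ) ≤ k0 := by exact_mod_cast hk0
  obtain ⟨i, hi⟩ := pow_unbounded_of_one_lt (C * (k0 : ℝ) ^ a) (show (1 : ℝ) < 2 by norm_num)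
  have h5 := h1 i
  have h6 := hub (2 ^ i * k0) (by
    have : 1 ≤ 2 ^ i := Nat.one_le_two_pow
    nlinarith)
  have h7 : ((2 : ℝ) ^ (a + 1)) ^ i ≤ C * (((2 ^ i * k0 : ℕ) : ℝ)) ^ a := h5.trans h6
  have h8 : C * (((2 ^ i * k0 : ℕ) : ℝ)) ^ a = (C * (k0 : ℝ) ^ a) * ((2 : ℝ) ^ a) ^ i := by
    push_cast
    rw [mul_pow, ← pow_mul, ← pow_mul, mul_comm i a]
    ring
  have h9 : ((2 : ℝ) ^ (a + 1)) ^ i = 2 ^ i * ((2 : ℝ) ^ a) ^ i := by
    rw [pow_succ, mul_pow]; ring
  rw [h8, h9] at h7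
  have h10 := le_of_mul_le_mul_right h7 (by positivity)
  linarith

/-- **Theorem**: for arbitrarily large `r`, the difference `R^(r) - R^(r-1)` is at least a constant
proportion of `R^(r-1)` for infinitely many `d`. -/
theorem exists_unbounded (r0 : ℕ) : ∃ r, r0 ≤ r ∧ 3 ≤ r ∧ ∃ c : ℝ, 0 < c ∧
    ∃ᶠ d : ℕ in atTop, c * ramseyF2 (r - 1) d ≤ (ramseyF2 r d : ℝ) - ramseyF2 (r - 1) d := by
  by_contra hcon
  push Not at hcon
  set s := r0 + 1 with hs
  obtain ⟨C, a, hCa⟩ := ramsey_le_poly s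
  set u : ℕ := 9 * 2 ^ (a + 1) with hu
  -- `t = 2 u` maps
  set c : ℝ := 1 / (s * (2 * u)) with hc
  have hsR : (1 : ℝ) ≤ s := by rw [hs]; push_cast; linarith [Nat.cast_nonneg (α := ℝ) r0]
  have huR : (1 : ℝ) ≤ u := by
    have : 1 ≤ u := by
      rw [hu]
      have := Nat.one_le_two_pow (n := a + 1)
      omega
    exact_mod_cast this
  have hc0 : 0 < c := by rw [hc]; positivity
  -- all consecutive differences are eventually small
  have hev : ∀ᶠ d : ℕ in atTop, ∀ r ∈ Finset.Icc (s + 2) (s * (2 * u) + 1),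
      (ramseyF2 r d : ℝ) ≤ (1 + c) * ramseyF2 (r - 1) d := by
    rw [Filter.eventually_all_finset]
    intro r hr
    rw [Finset.mem_Icc] at hr
    have h1 := hcon r (by omega) (by omega) c hc0
    filter_upwards [h1] with d hd
    linarith
  obtain ⟨k0, hk0⟩ := Filter.eventually_atTop.mp (hev.and ((eventually_ramsey_lower (3 / 2)
    (by norm_num)).and (eventually_ge_atTop 4)))
  apply growth_contradiction (fun d => (ramseyF2 (s + 1) d : ℝ)) C a (max k0 1) (le_max_right _ _)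
  · intro d hd
    have := hCa d hd
    exact_mod_cast this
  · have := ramsey_pos s (max k0 1) (le_max_right _ _)
    show (1 : ℝ) ≤ (ramseyF2 (s + 1) (max k0 1) : ℝ)
    exact_mod_cast this
  · intro k hk
    have hkk0 : k0 ≤ k := le_trans (le_max_left _ _) hk
    obtain ⟨_, hlow, hk4⟩ := hk0 k hkk0
    obtain ⟨hsm, _, _⟩ := hk0 (2 * k) (by omega)
    -- upper bound for many colours in terms of `G (2 k)`
    have hmany : ∀ e : ℕ, s + 1 + e ≤ s * (2 * u) + 1 →
        (ramseyF2 (s + 1 + e) (2 * k) : ℝ) ≤ (1 + c) ^ e * ramseyF2 (s + 1) (2 * k) := by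
      intro e
      induction e with
      | zero => intro _; simp
      | succ e ih =>
        intro he
        have h2 := ih (by omega)
        have h3 := hsm (s + 1 + (e + 1)) (by rw [Finset.mem_Icc]; omega)
        have h4 : s + 1 + (e + 1) - 1 = s + 1 + e := by omega
        rw [h4] at h3
        calc (ramseyF2 (s + 1 + (e + 1)) (2 * k) : ℝ) ≤
              (1 + c) * ramseyF2 (s + 1 + e) (2 * k) := h3
          _ ≤ (1 + c) * ((1 + c) ^ e * ramseyF2 (s + 1) (2 * k)) :=
              mul_le_mul_of_nonneg_left h2 (by linarith)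
          _ = _ := by rw [pow_succ]; ring
    have hst : s ≤ s * (2 * u) := by
      have : 1 ≤ 2 * u := by
        have : 1 ≤ u := by exact_mod_cast huR
        omega
      exact Nat.le_mul_of_pos_right _ (by omega)
    have h5 := hmany (s * (2 * u) - s) (by omega)
    have h6 : s + 1 + (s * (2 * u) - s) = s * (2 * u) + 1 := by omega
    rw [h6] at h5
    have h7 : (1 + c) ^ (s * (2 * u) - s) ≤ 3 := by
      calc (1 + c) ^ (s * (2 * u) - s) ≤ (1 + c) ^ (s * (2 * u)) :=
            pow_le_pow_right₀ (by linarith) (by omega)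
        _ ≤ Real.exp c ^ (s * (2 * u)) :=
            pow_le_pow_left₀ (by linarith) (by
              have := Real.add_one_le_exp c
              linarith) _
        _ = Real.exp 1 := by
            rw [← Real.exp_nat_mul]
            congr 1
            rw [hc]
            push_cast
            field_simp
        _ ≤ 3 := by
            have := Real.exp_one_lt_d9
            linarith
    -- the pullback inequality
    have hlowk := hlow s (by omega)
    have hkR : (4 : ℝ) ≤ k := by exact_mod_cast hk4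
    have hGk : k + 2 ≤ ramseyF2 (s + 1) k := by
      have : ((k + 2 : ℕ) : ℝ) ≤ ramseyF2 (s + 1) k := by push_cast; linarith
      exact_mod_cast this
    have h8 := pull_ineq s (2 * u) k k (u * (ramseyF2 (s + 1) k - k)) (by omega) hGk (by
      have : u * (ramseyF2 (s + 1) k - k) * (k + k) =
          2 * u * (k * (ramseyF2 (s + 1) k - k)) := by ring
      omega)
    rw [← two_mul] at h8
    have h9 : ((u * (ramseyF2 (s + 1) k - k) : ℕ) : ℝ) ≤ ramseyF2 (s * (2 * u) + 1) (2 * k) := by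
      exact_mod_cast h8.le
    push_cast [Nat.cast_sub (show k ≤ ramseyF2 (s + 1) k by omega)] at h9
    have hGpos : (0 : ℝ) ≤ ramseyF2 (s + 1) (2 * k) := by positivity
    have h10 : (ramseyF2 (s * (2 * u) + 1) (2 * k) : ℝ) ≤ 3 * ramseyF2 (s + 1) (2 * k) :=
      h5.trans (mul_le_mul_of_nonneg_right h7 hGpos)
    have h11 : (1 / 3 : ℝ) * ramseyF2 (s + 1) k ≤ (ramseyF2 (s + 1) k : ℝ) - k := by linarith
    have h12 : (u : ℝ) * ((1 / 3 : ℝ) * ramseyF2 (s + 1) k) ≤
        u * ((ramseyF2 (s + 1) k : ℝ) - k) := mul_le_mul_of_nonneg_left h11 (by linarith)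
    have h13 : (u : ℝ) = 9 * 2 ^ (a + 1) := by rw [hu]; push_cast; ring
    show (2 : ℝ) ^ (a + 1) * (ramseyF2 (s + 1) k : ℝ) ≤ (ramseyF2 (s + 1) (2 * k) : ℝ)
    rw [h13] at h12 h9
    nlinarith

/-- **Theorem**, explicit version: one of the first 25 differences is at least a constant
proportion of the Ramsey number for infinitely many `d`. -/
theorem exists_unbounded_27 : ∃ r, 3 ≤ r ∧ r ≤ 27 ∧ ∃ c : ℝ, 0 < c ∧
    ∃ᶠ d : ℕ in atTop, c * ramseyF2 (r - 1) d ≤ (ramseyF2 r d : ℝ) - ramseyF2 (r - 1) d := by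
  by_contra hcon
  push Not at hcon
  set c : ℝ := 1 / 100000 with hc
  have hev : ∀ᶠ d : ℕ in atTop, ∀ r ∈ Finset.Icc 3 27,
      (ramseyF2 r d : ℝ) ≤ (1 + c) * ramseyF2 (r - 1) d := by
    rw [Filter.eventually_all_finset]
    intro r hr
    rw [Finset.mem_Icc] at hr
    have h1 := hcon r hr.1 hr.2 c (by norm_num)
    filter_upwards [h1] with d hd
    linarith
  obtain ⟨k0, hk0⟩ := Filter.eventually_atTop.mp (hev.and ((eventually_ramsey_lower (19 / 10)
    (by norm_num)).and (eventually_ge_atTop 30000)))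
  -- one step
  have hstep : ∀ k ≥ k0, (259 / 100 : ℝ) * ((ramseyF2 2 k : ℝ) - (44 / 25) * k) ≤
      (ramseyF2 2 (k + k / 9) : ℝ) - (44 / 25) * ((k + k / 9 : ℕ) : ℝ) := by
    intro k hk
    obtain ⟨_, hlow, hk4⟩ := hk0 k hk
    obtain ⟨hsm, _, _⟩ := hk0 (k + k / 9) (by omega)
    set l := k / 9 with hl
    have hmany : ∀ e : ℕ, e ≤ 25 →
        (ramseyF2 (2 + e) (k + l) : ℝ) ≤ (1 + c) ^ e * ramseyF2 2 (k + l) := by
      intro e
      induction e with
      | zero => intro _; simp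
      | succ e ih =>
        intro he
        have h2 := ih (by omega)
        have h3 := hsm (2 + (e + 1)) (by rw [Finset.mem_Icc]; omega)
        have h4 : 2 + (e + 1) - 1 = 2 + e := by omega
        rw [h4] at h3
        have hc0 : (0 : ℝ) ≤ 1 + c := by norm_num [hc]
        calc (ramseyF2 (2 + (e + 1)) (k + l) : ℝ) ≤ (1 + c) * ramseyF2 (2 + e) (k + l) := h3
          _ ≤ (1 + c) * ((1 + c) ^ e * ramseyF2 2 (k + l)) :=
              mul_le_mul_of_nonneg_left h2 hc0
          _ = _ := by rw [pow_succ]; ring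
    have h5 := hmany 25 le_rfl
    have h7 : (1 + c) ^ 25 ≤ 10003 / 10000 := by rw [hc]; norm_num
    have hlowk := hlow 1 le_rfl
    have hkR : (30000 : ℝ) ≤ k := by exact_mod_cast hk4
    have hGk : k + 2 ≤ ramseyF2 (1 + 1) k := by
      have : ((k + 2 : ℕ) : ℝ) ≤ ramseyF2 (1 + 1) k := by push_cast; linarith
      exact_mod_cast this
    obtain ⟨g, hg⟩ : ∃ g, ramseyF2 (1 + 1) k = k + g := ⟨_, (Nat.add_sub_of_le (by omega)).symm⟩
    have e2 : k + g - k = g := by omega
    have hkl : 0 < k + l := by omega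
    set n := 26 * (l * g) / (k + l) with hn
    have h8 := pull_ineq 1 26 k l n (by omega) hGk (by
      rw [hg, e2, hn]
      exact Nat.div_mul_le_self _ _)
    have h9 : ((26 * (l * g) : ℕ) : ℝ) ≤ (n + 1 : ℝ) * ((k + l : ℕ) : ℝ) := by
      have h10 := Nat.lt_div_mul_add hkl (a := 26 * (l * g))
      have h11 : 26 * (l * g) ≤ (n + 1) * (k + l) := by
        rw [hn]
        have : (26 * (l * g) / (k + l) + 1) * (k + l) =
            26 * (l * g) / (k + l) * (k + l) + (k + l) := by ring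
        rw [this]
        exact h10.le
      exact_mod_cast h11
    have h12 : (n + 1 : ℝ) ≤ ramseyF2 (2 + 25) (k + l) := by
      have h13 : n + 1 ≤ ramseyF2 (1 * 26 + 1) (k + l) := h8
      have h14 : (1 * 26 + 1 : ℕ) = 2 + 25 := by norm_num
      rw [h14] at h13
      exact_mod_cast h13
    have hG2 : (ramseyF2 2 k : ℝ) = k + g := by exact_mod_cast hg
    have hlr1 : (9 : ℝ) * l ≤ k := by
      have : 9 * l ≤ k := by omega
      exact_mod_cast this
    have hlr2 : (k : ℝ) ≤ 9 * l + 8 := by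
      have : k ≤ 9 * l + 8 := by omega
      exact_mod_cast this
    have hgr : (9 / 10 : ℝ) * k ≤ g := by
      have h15 : (19 / 10 : ℝ) * k ≤ ramseyF2 2 k := hlowk
      rw [hG2] at h15
      linarith
    have hGn : (0 : ℝ) ≤ ramseyF2 2 (k + l) := by positivity
    -- combine
    push_cast at h9
    have hgpos : (0 : ℝ) ≤ g := by positivity
    have h16 : (n + 1 : ℝ) ≤ 10003 / 10000 * ramseyF2 2 (k + l) :=
      h12.trans (h5.trans (mul_le_mul_of_nonneg_right h7 hGn))
    have hkl' : (0 : ℝ) < k + l := by positivity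
    -- `26 l / (k + l) ≥ 2.599`
    have h17 : (2599 / 1000 : ℝ) * g * (k + l) ≤ 26 * (l * g) := by
      have h18 : (2599 / 1000 : ℝ) * (k + l) ≤ 26 * l := by linarith
      calc (2599 / 1000 : ℝ) * g * (k + l) = g * ((2599 / 1000 : ℝ) * (k + l)) := by ring
        _ ≤ g * (26 * l) := mul_le_mul_of_nonneg_left h18 hgpos
        _ = _ := by ring
    have h19 : (2599 / 1000 : ℝ) * g ≤ n + 1 := by
      have h20 : (2599 / 1000 : ℝ) * g * (k + l) ≤ (n + 1) * (k + l) := h17.trans h9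
      exact le_of_mul_le_mul_right h20 hkl'
    rw [hG2]
    push_cast
    linarith
  -- iterate
  set K : ℕ → ℕ := fun i => (fun k => k + k / 9)^[i] k0 with hK
  have hKs : ∀ i, K (i + 1) = K i + K i / 9 := by
    intro i
    simp only [hK, Function.iterate_succ', Function.comp]
  have hKge : ∀ i, k0 ≤ K i := by
    intro i
    induction i with
    | zero => simp [hK]
    | succ i ih => rw [hKs]; omega
  have hKle : ∀ i, (K i : ℝ) ≤ (10 / 9 : ℝ) ^ i * k0 := by
    intro i
    induction i with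
    | zero => simp [hK]
    | succ i ih =>
      rw [hKs, pow_succ]
      have h1 : ((K i / 9 : ℕ) : ℝ) ≤ (K i : ℝ) / 9 := by
        have := Nat.cast_div_le (α := ℝ) (m := K i) (n := 9)
        simpa using this
      push_cast
      push_cast at h1
      linarith
  have hH : ∀ i, (259 / 100 : ℝ) ^ i ≤ (ramseyF2 2 (K i) : ℝ) - (44 / 25) * K i := by
    intro i
    induction i with
    | zero =>
      obtain ⟨_, hlow, hk4⟩ := hk0 k0 le_rfl
      have h1 : (19 / 10 : ℝ) * k0 ≤ ramseyF2 2 k0 := hlow 1 le_rfl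
      have hkR : (30000 : ℝ) ≤ k0 := by exact_mod_cast hk4
      have : K 0 = k0 := rfl
      rw [this, pow_zero]
      linarith
    | succ i ih =>
      have h1 := hstep (K i) (hKge i)
      rw [← hKs] at h1
      calc (259 / 100 : ℝ) ^ (i + 1) = (259 / 100 : ℝ) * (259 / 100 : ℝ) ^ i := by
            rw [pow_succ]; ring
        _ ≤ (259 / 100 : ℝ) * ((ramseyF2 2 (K i) : ℝ) - (44 / 25) * K i) :=
            mul_le_mul_of_nonneg_left ih (by norm_num)
        _ ≤ _ := h1
  have hk01 : 1 ≤ k0 := by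
    obtain ⟨_, _, hk4⟩ := hk0 k0 le_rfl
    omega
  -- contradiction
  obtain ⟨i, hi⟩ := pow_unbounded_of_one_lt ((1000000000000000000 : ℝ) * (k0 : ℝ) ^ 9)
    (show (1 : ℝ) < (259 / 100) / (10 / 9 : ℝ) ^ 9 by norm_num)
  have h1 := hH i
  have h2 : (ramseyF2 2 (K i) : ℝ) ≤ 1000000000000000000 * (K i : ℝ) ^ 9 := by
    have := ramsey_one_le (K i) (le_trans hk01 (hKge i))
    exact_mod_cast this
  have h3 : (K i : ℝ) ^ 9 ≤ ((10 / 9 : ℝ) ^ i * k0) ^ 9 :=
    pow_le_pow_left₀ (by positivity) (hKle i) 9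
  have h4 : ((10 / 9 : ℝ) ^ i * k0) ^ 9 = ((10 / 9 : ℝ) ^ 9) ^ i * (k0 : ℝ) ^ 9 := by
    rw [mul_pow, ← pow_mul, ← pow_mul, mul_comm i 9]
  have h5 : (0 : ℝ) ≤ (44 / 25) * K i := by positivity
  have h6 : (259 / 100 : ℝ) ^ i ≤
      1000000000000000000 * (((10 / 9 : ℝ) ^ 9) ^ i * (k0 : ℝ) ^ 9) := by
    rw [← h4]
    calc (259 / 100 : ℝ) ^ i ≤ (ramseyF2 2 (K i) : ℝ) := by linarith
      _ ≤ 1000000000000000000 * (K i : ℝ) ^ 9 := h2
      _ ≤ _ := mul_le_mul_of_nonneg_left h3 (by norm_num)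
  rw [div_pow, lt_div_iff₀ (by positivity)] at hi
  linarith

end Pool.Agent.Helper22.SR
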